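import Pool.Agent.P8H31.VC.Stm3

/-!
Project VC (helper31), package E4: the averages vary slowly.
-/

set_option autoImplicit false
open MeasureTheory Filter Topology Complex ProbabilityTheory
open scoped ContDiff

namespace Pool.Agent.P8H76.VC

open Pool.Agent.W745.RW Pool.Agent.TH294.RS Pool.Agent.TH294.RG Pool.Agent.P8H31.NZ
open Pool.Agent.P8H31.VC

noncomputable section

lemma psi_bd {B S : Set ℂ} (hB : IsOpen B) {φ : ℂ → ℝ} (hφ : TF B φ) {M : ℝ}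
    (hM : ∀ z, φ z ≤ M) (hS : IsCompact S) (hφS : tsupport φ ⊆ S) {f : ℂ → ℝ}
    (hf : ContinuousOn f B) (hfS : ContinuousOn f S) (f0 : ∀ z, 0 ≤ f z) :
    ∫ z, φ z * f z ≤ M * ∫ z in S, f z := by
  rw [← integral_const_mul, ← integral_indicator hS.measurableSet]
  have i1 : Integrable (fun z => φ z * f z) := Pool.Agent.W311.RW.int_mul hB hφ hf
  have i3 : IntegrableOn (fun z => M * f z) S :=
    (continuousOn_const.mul hfS).integrableOn_compact hS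
  refine integral_mono i1 ((integrable_indicator_iff hS.measurableSet).2 i3) fun z => ?_
  by_cases hz : z ∈ S
  · rw [Set.indicator_of_mem hz]
    exact mul_le_mul_of_nonneg_right (hM z) (f0 z)
  · rw [Set.indicator_of_notMem hz]
    show φ z * _ ≤ 0
    rw [image_eq_zero_of_notMem_tsupport (fun h => hz (hφS h)), zero_mul]

lemma tf_max {B : Set ℂ} {φ : ℂ → ℝ} (hφ : TF B φ) : ∃ M : ℝ, 0 ≤ M ∧ ∀ z, φ z ≤ M := by
  obtain ⟨Mφ, hMφ⟩ := hφ.2.1.exists_bound_of_continuousOn hφ.1.continuous.continuousOn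
  refine ⟨|Mφ|, abs_nonneg _, fun z => ?_⟩
  by_cases hz : z ∈ tsupport φ
  · exact (le_abs_self _).trans ((hMφ z hz).trans (le_abs_self _))
  · rw [image_eq_zero_of_notMem_tsupport hz]; exact abs_nonneg _

lemma LBsum {ι : Type*} {B : Set ℂ} {p : ℕ} (s : Finset ι) {F : ι → ℕ → ℂ → ℂ}
    (h : ∀ i, LB B p (F i)) : LB B p (fun n z => ∑ i ∈ s, F i n z) := by
  classical
  induction s using Finset.induction_on with
  | empty => simpa using LB.const B p (c := fun _ => 0) contDiffOn_const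
  | insert i s hi ih =>
    refine ((h i).add ih).congr fun n z _ => ?_
    rw [Finset.sum_insert hi]

/-- the operator on finite sums of products -/
lemma DP_sum {ι : Type*} (a : ℂ → ℝ) (t : ℝ) (s : Finset ι) (c : ι → ℂ) (f g : ι → ℂ → ℂ) {z : ℂ}
    (hf : ∀ i, DifferentiableAt ℝ (f i) z) (hg : ∀ i, DifferentiableAt ℝ (g i) z) :
    DP a t (fun z => ∑ i ∈ s, c i * (f i z * g i z)) z =
      ∑ i ∈ s, c i * (DP a t (f i) z * g i z + f i z * DP a t (g i) z) := by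
  have e : ∀ v, fderiv ℝ (fun z => ∑ i ∈ s, c i * (f i z * g i z)) z v =
      ∑ i ∈ s, c i * (fderiv ℝ (f i) z v * g i z + f i z * fderiv ℝ (g i) z v) := by
    intro v
    have h1 : HasFDerivAt (fun z => ∑ i ∈ s, c i * (f i z * g i z))
        (∑ i ∈ s, c i • (f i z • fderiv ℝ (g i) z + g i z • fderiv ℝ (f i) z)) z :=
      HasFDerivAt.fun_sum fun i _ =>
        (((hf i).hasFDerivAt.mul (hg i).hasFDerivAt).const_mul (c i))
    rw [h1.fderiv]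
    simp only [sum_apply, smul_apply, add_apply, smul_eq_mul]
    refine Finset.sum_congr rfl fun i _ => ?_
    ring
  simp only [DP, dd, dx, dy, e]
  rw [Finset.mul_sum, ← Finset.sum_sub_distrib, Finset.mul_sum, Finset.mul_sum]
  refine Finset.sum_congr rfl fun i _ => ?_
  ring

/-- the telescoping sum -/
lemma tele (P : ℤ → ℂ) (N : ℕ) : ∑ k ∈ Finset.Icc 1 N, sg (k : ℤ) * (P k + P ((k : ℤ) - 1)) =
    sg (N : ℤ) * P N - P 0 := by
  induction N with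
  | zero => simp [sg]
  | succ N ih =>
    rw [Finset.sum_Icc_succ_top (by omega), ih]
    have s1 : sg ((N + 1 : ℕ) : ℤ) = - sg (N : ℤ) := by
      have : ((N + 1 : ℕ) : ℤ) = (N : ℤ) + 1 := by push_cast; rfl
      rw [this, sg_add]; simp [sg]
    have s2 : (((N + 1 : ℕ) : ℤ) - 1) = (N : ℤ) := by push_cast; ring
    rw [s1, s2]
    ring

lemma ww_nrm (a : ℂ → ℝ) (h : ℕ → ℝ) (u : ℕ → ℂ → ℝ) (k : ℤ) (n : ℕ) (z : ℂ) :
    ‖ww a h (fun n z => (u n z : ℂ)) (-k) n z‖ = ‖ww a h (fun n z => (u n z : ℂ)) k n z‖ := by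
  have h1 := ww_cj a h (u := fun n z => (u n z : ℂ)) (fun n z => conj_ofReal _) k n z
  have h2 := congrArg (fun x => ‖x‖) h1
  simp only [norm_mul, sg_norm, one_mul, RCLike.norm_conj] at h2
  exact h2.symm

/-- the averages are real -/
lemma FF_real (a : ℂ → ℝ) (h : ℕ → ℝ) (u : ℕ → ℂ → ℝ) (N n : ℕ) (z : ℂ) :
    FF a h u N n z = (((FF a h u N n z).re : ℝ) : ℂ) := by
  have hu : ∀ n z, (starRingEnd ℂ) ((u n z : ℂ)) = (u n z : ℂ) := fun n z => conj_ofReal _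
  have h1 : FF a h u N n z = ((∑ k ∈ Finset.Icc 1 N, (N : ℝ)⁻¹ *
      ‖ww a h (fun n z => (u n z : ℂ)) (k : ℤ) n z‖ ^ 2 : ℝ) : ℂ) := by
    unfold FF FA
    rw [Finset.sum_map]
    push_cast
    refine Finset.sum_congr rfl fun k _ => ?_
    rw [Nat.castEmbedding_apply, zero_add, zero_sub]
    have h2 := ww_cj a h (u := fun n z => (u n z : ℂ)) hu (k : ℤ) n z
    have h3 : ((‖ww a h (fun n z => (u n z : ℂ)) (k : ℤ) n z‖ : ℝ) : ℂ) ^ 2 =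
        ww a h (fun n z => (u n z : ℂ)) (k : ℤ) n z *
        (starRingEnd ℂ) (ww a h (fun n z => (u n z : ℂ)) (k : ℤ) n z) := by
      rw [Complex.mul_conj, Complex.normSq_eq_norm_sq]; push_cast; rfl
    rw [h3, h2]
    ring
  rw [h1, ofReal_re]

/-- the norm of the operator on a real function -/
lemma DP_re (a : ℂ → ℝ) (t : ℝ) {F : ℂ → ℝ} {z : ℂ} (hF : DifferentiableAt ℝ F z) :
    ‖DP a t (fun z => ((F z : ℝ) : ℂ)) z‖ ^ 2 =
      a z ^ 2 * ((t * fderiv ℝ F z 1) ^ 2 + (t * fderiv ℝ F z I) ^ 2) := by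
  have e : ∀ v, fderiv ℝ (fun z => ((F z : ℝ) : ℂ)) z v = ((fderiv ℝ F z v : ℝ) : ℂ) := by
    intro v
    have h1 : HasFDerivAt (fun z => ((F z : ℝ) : ℂ)) (ofRealCLM.comp (fderiv ℝ F z)) z :=
      (ofRealCLM.hasFDerivAt (x := F z)).comp z hF.hasFDerivAt
    rw [h1.fderiv]; rfl
  simp only [DP, dd, dx, dy, e]
  rw [Complex.sq_norm, normSq_apply]
  simp only [mul_re, mul_im, sub_re, sub_im, ofReal_re, ofReal_im, I_re, I_im]
  ring

/-- the fourth moments are bounded uniformly in the frequency -/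
lemma w4 {m : ℂ → ℝ} {ν : Kernel ℂ ℝ} {Ω : Set ℂ} {a : ℂ → ℝ} {h : ℕ → ℝ}
    {u : ℕ → ℂ → ℝ} {K : Set ℂ} {T : ℝ} (hyp : Hyp m ν Ω a h u K T) {φ : ℂ → ℝ}
    (hφ : TF (interior K) φ) (hφ0 : ∀ z, 0 ≤ φ z) : ∃ C : ℝ, 0 ≤ C ∧ ∀ k : ℤ, ∀ᶠ n in atTop,
      ∫ z, φ z * ‖ww a h (fun n z => (u n z : ℂ)) k n z‖ ^ 4 ≤ C := by
  have := hyp.mk1
  have hB : IsOpen (interior K) := isOpen_interior
  have hBΩ : interior K ⊆ Ω := interior_subset.trans hyp.hKΩ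
  have hmB : ∀ K' : Set ℂ, IsCompact K' → K' ⊆ interior K → MemLp m 2 (volume.restrict K') :=
    fun K' hK' hKB => hyp.hm K' hK' (hKB.trans hBΩ)
  have cu : ∀ n, ContinuousOn (fun z => u n z ^ 4) K := fun n =>
    ((hyp.H.sm n).continuousOn.mono hyp.hKΩ).pow 4
  have T0 : ∀ n, 0 ≤ ∫ z in K, u n z ^ 4 := fun n => integral_nonneg fun z => by positivity
  have Tn : 0 ≤ T := by
    obtain ⟨n, hn⟩ := hyp.hT.exists
    exact (T0 n).trans hn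
  obtain ⟨M, M0, hM⟩ := tf_max hφ
  obtain ⟨A, hAd⟩ : ∃ A : ℝ, A = ∫ z, φ z * (m z * m z) := ⟨_, rfl⟩
  have hA2 : ∫ z, φ z * m z ^ 2 = A := by
    rw [hAd]; congr 1; funext z; ring
  have fA : ∀ k, fK (MM m ea ν) φ k ≤ A := fun k => by
    rw [hAd]; exact fK_MM (ν := ν) hmB hφ hφ0 k
  have f0 : ∀ k, 0 ≤ fK (MM m ea ν) φ k := fun k => fK_nn hφ0 k
  have A0 : 0 ≤ A := (f0 0).trans (fA 0)
  refine ⟨3 * A + M * T + (1 + T), by positivity, fun k => ?_⟩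
  have ev := FA_sharp hyp.hm hyp.hp hyp.H hyp.hK hyp.hKΩ hφ hφ0 0 0 ⟨0, rfl⟩ {k} (fun _ => 1)
    one_pos
  filter_upwards [ev, hyp.hT] with n g2 g4
  have e1 : ∀ z, φ z * ‖ww a h (fun n z => (u n z : ℂ)) k n z‖ ^ 4 =
      φ z * ‖FA (ww a h (fun n z => (u n z : ℂ))) 0 0 {k} (fun _ => 1) n z‖ ^ 2 := by
    intro z
    unfold FA
    rw [Finset.sum_singleton, one_mul, zero_add, zero_sub, norm_mul, ww_nrm]
    ring
  simp only [e1]
  refine g2.trans ?_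
  rw [← hAd, hA2]
  simp only [Finset.sum_singleton, norm_one, mul_one, sg_norm, one_pow, one_mul]
  have g3 : ∫ z, φ z * u n z ^ 4 ≤ M * T :=
    (psi_bd hB hφ hM hyp.hK (hφ.2.2.trans interior_subset) (f := fun z => u n z ^ 4)
      (((hyp.H.sm n).continuousOn.mono hBΩ).pow 4) (cu n) (fun z => by positivity)).trans
      (mul_le_mul_of_nonneg_left g4 M0)
  have a1 := fA (k - k)
  have a2 := fA (0 - 0 + k + k)
  have e9 : (1 / 3 + 2 / 3 : ℝ) * ((∫ z, φ z * u n z ^ 4) - 3 * A) =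
      (∫ z, φ z * u n z ^ 4) - 3 * A := by ring
  rw [e9]
  linarith

/-- **E4.** -/
theorem e4 : S_E4 := by
  intro m ν Ω a h u K T hyp χ hχ hχ0
  have := hyp.mk1
  have hB : IsOpen (interior K) := isOpen_interior
  have hBΩ : interior K ⊆ Ω := interior_subset.trans hyp.hKΩ
  have hmB : ∀ K' : Set ℂ, IsCompact K' → K' ⊆ interior K → MemLp m 2 (volume.restrict K') :=
    fun K' hK' hKB => hyp.hm K' hK' (hKB.trans hBΩ)
  have cu : ∀ n, ContinuousOn (fun z => u n z ^ 4) K := fun n =>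
    ((hyp.H.sm n).continuousOn.mono hyp.hKΩ).pow 4
  have H1' : RawG (interior K) a h u (MM m ea ν) := hyp.H.cmp hBΩ tendsto_id
  have A' := H1'.as hB (fun k => ((MM_ml ea_meas ea_norm (B := interior K) (ν := ν) hmB) k))
    (fun z => by rw [MM_0, conj_ofReal])
    (fun K' hK' hKB => ⟨T, hyp.hT.mono fun n hn => by
      have : ∫ z in K', u n z ^ 4 ≤ ∫ z in K, u n z ^ 4 := by
        refine setIntegral_mono_set ((cu _).integrableOn_compact hyp.hK)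
          (ae_of_all _ fun z => by positivity) ?_
        exact (hKB.trans interior_subset).eventuallyLE
      linarith⟩)
  obtain ⟨w, hw⟩ : ∃ w : ℤ → ℕ → ℂ → ℂ, w = ww a h (fun n z => (u n z : ℂ)) := ⟨_, rfl⟩
  rw [← hw] at A'
  have cw : ∀ q n, ContinuousOn (w q n) (interior K) := fun q n => (A'.bd q).co n
  have ap : ∀ z ∈ interior K, 0 < a z := A'.pa
  obtain ⟨ψ, hψd⟩ : ∃ ψ : ℂ → ℝ, ψ = fun z => χ z * (a z ^ 2)⁻¹ := ⟨_, rfl⟩
  have hψ : TF (interior K) ψ := by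
    rw [hψd]
    exact TF.mulc hB hχ (ContDiffOn.inv (A'.sa.pow 2) fun z hz => pow_ne_zero 2 (ap z hz).ne')
  have hψ0 : ∀ z, 0 ≤ ψ z := fun z => by
    rw [hψd]; exact mul_nonneg (hχ0 z) (by positivity)
  obtain ⟨M, M0, hM⟩ := tf_max hψ
  obtain ⟨C0, hC0, hC⟩ := w4 hyp hψ hψ0
  rw [← hw] at hC
  choose e he he' using A'.up
  refine ⟨6 * C0 + 1, fun N hN => ?_⟩
  have hN' : (0 : ℝ) < N := by exact_mod_cast hN
  obtain ⟨EE, hEE⟩ : ∃ EE : ℕ → ℂ → ℂ, EE = fun n z => ∑ k ∈ Finset.Icc 1 N,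
    ((N : ℂ)⁻¹ * sg (k : ℤ)) * (e (k : ℤ) n z * w (-(k : ℤ)) n z +
      w (k : ℤ) n z * e (-(k : ℤ)) n z) := ⟨_, rfl⟩
  have lE : LB (interior K) 2 EE := by
    rw [hEE]
    exact LBsum _ fun k : ℕ => ((((he (k : ℤ)).mul4 (A'.bd (-(k : ℤ)))).add
      ((A'.bd (k : ℤ)).mul4 (he (-(k : ℤ))))).cmul _)
  -- the derivative of the average
  have key : ∀ n, ∀ z ∈ interior K, DP a (h n) (FF a h u N n) z =
      (N : ℂ)⁻¹ * (sg (N : ℤ) * (w ((N : ℤ) + 1) n z * w (-(N : ℤ)) n z) - w 1 n z * w 0 n z) +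
        (h n : ℂ) * EE n z := by
    intro n z hz
    have e1 : FF a h u N n = fun z => ∑ k ∈ Finset.Icc 1 N, ((N : ℂ)⁻¹ * sg (k : ℤ)) *
        (w (k : ℤ) n z * w (-(k : ℤ)) n z) := by
      funext z
      unfold FF FA
      rw [Finset.sum_map, hw]
      refine Finset.sum_congr rfl fun k _ => ?_
      rw [Nat.castEmbedding_apply, zero_add, zero_sub]
    rw [e1, DP_sum a (h n) _ _ (fun (k : ℕ) => w (k : ℤ) n) (fun (k : ℕ) => w (-(k : ℤ)) n)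
      (fun k => da hB ((A'.bd _).sm n) hz) (fun k => da hB ((A'.bd _).sm n) hz)]
    have e2 := tele (fun k => w (k + 1) n z * w (-k) n z) N
    simp only [zero_add, neg_zero] at e2
    rw [← e2, hEE, Finset.mul_sum]
    simp only [Finset.mul_sum]
    rw [← Finset.sum_add_distrib]
    refine Finset.sum_congr rfl fun k _ => ?_
    rw [he' (k : ℤ) n z hz, he' (-(k : ℤ)) n z hz,
      show (k : ℤ) - 1 + 1 = (k : ℤ) by ring, show -((k : ℤ) - 1) = -(k : ℤ) + 1 by ring]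
    ring
  -- the errors
  obtain ⟨D, hD⟩ := lE.bd _ hψ.2.1 hψ.2.2
  have hlim : Tendsto (fun n => 3 * (h n) ^ 2 * (M * |D|)) atTop (𝓝 0) := by
    have := ((A'.hlim.pow 2).const_mul 3).mul_const (M * |D|)
    simpa using this
  have ev0 := hlim.eventually (gt_mem_nhds (show (0 : ℝ) < 1 / (N : ℝ) ^ 2 by positivity))
  filter_upwards [ev0, hD, hC ((N : ℤ) + 1), hC (-(N : ℤ)), hC 1, hC 0] with n q0 q1 q2 q3 q4 q5
  -- pointwise
  have p1 : ∀ z, χ z * ((h n * fderiv ℝ (fun z => (FF a h u N n z).re) z 1) ^ 2 +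
      (h n * fderiv ℝ (fun z => (FF a h u N n z).re) z I) ^ 2) =
      ψ z * ‖DP a (h n) (FF a h u N n) z‖ ^ 2 := by
    intro z
    by_cases hz : z ∈ interior K
    · have e1 : FF a h u N n = fun z => (((FF a h u N n z).re : ℝ) : ℂ) := by
        funext z; exact FF_real a h u N n z
      have dF : DifferentiableAt ℝ (fun z => (FF a h u N n z).re) z := by
        have d1 : DifferentiableAt ℝ (FF a h u N n) z := by
          have e1 : FF a h u N n = fun z => ∑ k ∈ (Finset.Icc 1 N).map Nat.castEmbedding,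
              ((N : ℂ)⁻¹ * sg k) * (w (0 + k) n z * w (0 - k) n z) := by
            rw [hw]; rfl
          rw [e1]
          exact DifferentiableAt.fun_sum fun k _ => ((da hB ((A'.bd _).sm n) hz).mul
            (da hB ((A'.bd _).sm n) hz)).const_mul _
        exact (reCLM.differentiableAt).comp z d1
      have e2 := DP_re a (h n) dF
      rw [← e1] at e2
      rw [e2, hψd]
      have a2 : a z ≠ 0 := (ap z hz).ne'
      field_simp
    · have z1 : χ z = 0 := TF.zero hχ hz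
      have z2 : ψ z = 0 := TF.zero hψ hz
      rw [z1, z2, zero_mul, zero_mul]
  simp only [p1]
  have p2 : ∀ z ∈ interior K, ‖DP a (h n) (FF a h u N n) z‖ ^ 2 ≤
      3 / (2 * (N : ℝ) ^ 2) * (‖w ((N : ℤ) + 1) n z‖ ^ 4 + ‖w (-(N : ℤ)) n z‖ ^ 4 +
        (‖w 1 n z‖ ^ 4 + ‖w 0 n z‖ ^ 4)) + 3 * (h n) ^ 2 * ‖EE n z‖ ^ 2 := by
    intro z hz
    rw [key n z hz]
    obtain ⟨x, hx⟩ : ∃ x : ℂ, x = sg (N : ℤ) * (w ((N : ℤ) + 1) n z * w (-(N : ℤ)) n z) :=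
      ⟨_, rfl⟩
    obtain ⟨y, hy⟩ : ∃ y : ℂ, y = w 1 n z * w 0 n z := ⟨_, rfl⟩
    rw [← hx, ← hy]
    have h1 : ‖(N : ℂ)⁻¹ * (x - y) + (h n : ℂ) * EE n z‖ ≤
        (N : ℝ)⁻¹ * ‖x‖ + (N : ℝ)⁻¹ * ‖y‖ + |h n| * ‖EE n z‖ := by
      refine (norm_add_le _ _).trans (add_le_add ?_ (le_of_eq ?_))
      · rw [norm_mul, norm_inv, Complex.norm_natCast, ← mul_add]
        exact mul_le_mul_of_nonneg_left (norm_sub_le _ _) (by positivity)
      · rw [norm_mul, norm_real, Real.norm_eq_abs]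
    have h2 := pow_le_pow_left₀ (norm_nonneg _) h1 2
    have h3 : ((N : ℝ)⁻¹ * ‖x‖ + (N : ℝ)⁻¹ * ‖y‖ + |h n| * ‖EE n z‖) ^ 2 ≤
        3 * (((N : ℝ)⁻¹ * ‖x‖) ^ 2 + ((N : ℝ)⁻¹ * ‖y‖) ^ 2 + (|h n| * ‖EE n z‖) ^ 2) := by
      nlinarith [sq_nonneg ((N : ℝ)⁻¹ * ‖x‖ - (N : ℝ)⁻¹ * ‖y‖),
        sq_nonneg ((N : ℝ)⁻¹ * ‖x‖ - |h n| * ‖EE n z‖),
        sq_nonneg ((N : ℝ)⁻¹ * ‖y‖ - |h n| * ‖EE n z‖)]
    have h4 : ‖x‖ ^ 2 ≤ (‖w ((N : ℤ) + 1) n z‖ ^ 4 + ‖w (-(N : ℤ)) n z‖ ^ 4) / 2 := by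
      rw [hx, norm_mul, norm_mul, sg_norm, one_mul]
      nlinarith [sq_nonneg (‖w ((N : ℤ) + 1) n z‖ ^ 2 - ‖w (-(N : ℤ)) n z‖ ^ 2)]
    have h5 : ‖y‖ ^ 2 ≤ (‖w 1 n z‖ ^ 4 + ‖w 0 n z‖ ^ 4) / 2 := by
      rw [hy, norm_mul]
      nlinarith [sq_nonneg (‖w 1 n z‖ ^ 2 - ‖w 0 n z‖ ^ 2)]
    have h6 : (0 : ℝ) ≤ 3 * ((N : ℝ)⁻¹) ^ 2 := by positivity
    have h7 := mul_le_mul_of_nonneg_left (add_le_add h4 h5) h6
    refine h2.trans (h3.trans ?_)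
    have h8 : 3 * (((N : ℝ)⁻¹ * ‖x‖) ^ 2 + ((N : ℝ)⁻¹ * ‖y‖) ^ 2 + (|h n| * ‖EE n z‖) ^ 2) =
        3 * ((N : ℝ)⁻¹) ^ 2 * (‖x‖ ^ 2 + ‖y‖ ^ 2) + 3 * (h n) ^ 2 * ‖EE n z‖ ^ 2 := by
      rw [mul_pow |h n|, sq_abs]; ring
    rw [h8]
    refine add_le_add (h7.trans (le_of_eq ?_)) le_rfl
    field_simp
  have i4 : ∀ k : ℤ, Integrable (fun z => ψ z * ‖w k n z‖ ^ 4) := fun k =>
    Pool.Agent.W311.RW.int_mul hB hψ ((cw k n).norm.pow 4)
  have iE : Integrable (fun z => ψ z * ‖EE n z‖ ^ 2) :=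
    Pool.Agent.W311.RW.int_mul hB hψ ((lE.co n).norm.pow 2)
  have bE : ∫ z, ψ z * ‖EE n z‖ ^ 2 ≤ M * |D| := by
    refine (psi_bd hB hψ hM hψ.2.1 le_rfl (f := fun z => ‖EE n z‖ ^ 2) ((lE.co n).norm.pow 2)
      (((lE.co n).norm.pow 2).mono hψ.2.2) (fun z => by positivity)).trans ?_
    exact mul_le_mul_of_nonneg_left (q1.trans (le_abs_self _)) M0
  have i5 : Integrable (fun z => ψ z * ‖w ((N : ℤ) + 1) n z‖ ^ 4 +
      ψ z * ‖w (-(N : ℤ)) n z‖ ^ 4) := (i4 _).add (i4 _)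
  have i6 : Integrable (fun z => ψ z * ‖w 1 n z‖ ^ 4 + ψ z * ‖w 0 n z‖ ^ 4) := (i4 _).add (i4 _)
  have i7 : Integrable (fun z => (ψ z * ‖w ((N : ℤ) + 1) n z‖ ^ 4 +
      ψ z * ‖w (-(N : ℤ)) n z‖ ^ 4) + (ψ z * ‖w 1 n z‖ ^ 4 + ψ z * ‖w 0 n z‖ ^ 4)) := i5.add i6
  have i8 : Integrable (fun z => 3 / (2 * (N : ℝ) ^ 2) * ((ψ z * ‖w ((N : ℤ) + 1) n z‖ ^ 4 +
      ψ z * ‖w (-(N : ℤ)) n z‖ ^ 4) + (ψ z * ‖w 1 n z‖ ^ 4 + ψ z * ‖w 0 n z‖ ^ 4)) +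
      3 * (h n) ^ 2 * (ψ z * ‖EE n z‖ ^ 2)) := (i7.const_mul _).add (iE.const_mul _)
  have big : ∫ z, ψ z * ‖DP a (h n) (FF a h u N n) z‖ ^ 2 ≤
      ∫ z, (3 / (2 * (N : ℝ) ^ 2) * ((ψ z * ‖w ((N : ℤ) + 1) n z‖ ^ 4 +
      ψ z * ‖w (-(N : ℤ)) n z‖ ^ 4) + (ψ z * ‖w 1 n z‖ ^ 4 + ψ z * ‖w 0 n z‖ ^ 4)) +
      3 * (h n) ^ 2 * (ψ z * ‖EE n z‖ ^ 2)) := by
    refine integral_mono_of_nonneg (ae_of_all _ fun z => mul_nonneg (hψ0 z) (sq_nonneg _)) i8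
      (ae_of_all _ fun z => ?_)
    show ψ z * ‖DP a (h n) (FF a h u N n) z‖ ^ 2 ≤ _
    by_cases hz : z ∈ interior K
    · refine (mul_le_mul_of_nonneg_left (p2 z hz) (hψ0 z)).trans (le_of_eq ?_)
      ring
    · have z2 : ψ z = 0 := TF.zero hψ hz
      simp only [z2]
      simp
  refine big.trans ?_
  rw [integral_add (i7.const_mul _) (iE.const_mul _), integral_const_mul, integral_const_mul,
    integral_add i5 i6, integral_add (i4 _) (i4 _), integral_add (i4 _) (i4 _)]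
  have f1 := mul_le_mul_of_nonneg_left (add_le_add (add_le_add q2 q3) (add_le_add q4 q5))
    (show 0 ≤ 3 / (2 * (N : ℝ) ^ 2) by positivity)
  have f2 := mul_le_mul_of_nonneg_left bE (show 0 ≤ 3 * (h n) ^ 2 by positivity)
  have f3 : 3 / (2 * (N : ℝ) ^ 2) * (C0 + C0 + (C0 + C0)) + 1 / (N : ℝ) ^ 2 =
      (6 * C0 + 1) / (N : ℝ) ^ 2 := by
    field_simp
    ring
  rw [← f3]
  exact add_le_add f1 (f2.trans q0.le)

end

end Pool.Agent.P8H76.VC
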