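import Pool.Agent.P8H31.VC.Stm4
import Pool.Agent.P8H76.VC.E3

/-!
Project VC (helper31), package GE3: the Cauchy property of the averages for general weights.
-/

set_option autoImplicit false
open MeasureTheory Filter Topology Complex ProbabilityTheory
open scoped ContDiff

namespace Pool.Agent.P8H76.VC

open Pool.Agent.W745.RW Pool.Agent.TH294.RS Pool.Agent.TH294.RG Pool.Agent.P8H31.NZ
open Pool.Agent.P8H31.VC

noncomputable section

/-- double averages with a shift -/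
lemma lemS {f : ℤ → ℝ} {A : ℝ} (f0 : ∀ k, 0 ≤ f k) (fA : ∀ k, f k ≤ A)
    (h : Tendsto (fun N : ℕ => ((N : ℝ) ^ 2)⁻¹ * ∑ j ∈ Finset.Icc 1 N, ∑ k ∈ Finset.Icc 1 N,
      (f ((j : ℤ) - k) + f ((j : ℤ) + k))) atTop (𝓝 0)) (d : ℤ) :
    Tendsto (fun N : ℕ => ∑ k ∈ Finset.Icc 1 N, ∑ l ∈ Finset.Icc 1 N,
      (N : ℝ)⁻¹ * (N : ℝ)⁻¹ * (f ((k : ℤ) - l) + f (d + (k : ℤ) + l))) atTop (𝓝 0) := by
  have inv0 := tendsto_inv_atTop_nhds_zero_nat (𝕜 := ℝ)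
  have l1 := h.add (inv0.mul_const (|(d : ℝ)| * A))
  rw [zero_mul, add_zero] at l1
  refine squeeze_zero' (Eventually.of_forall fun N => Finset.sum_nonneg fun k _ =>
    Finset.sum_nonneg fun l _ => mul_nonneg (by positivity) (add_nonneg (f0 _) (f0 _))) ?_ l1
  filter_upwards [eventually_gt_atTop 0] with N hN
  have hN' : (0 : ℝ) < N := by exact_mod_cast hN
  have s1 : ∀ k ∈ Finset.Icc 1 N, ∑ l ∈ Finset.Icc 1 N, (f ((k : ℤ) - l) + f (d + (k : ℤ) + l)) ≤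
      (∑ l ∈ Finset.Icc 1 N, (f ((k : ℤ) - l) + f ((k : ℤ) + l))) + |(d : ℝ)| * A := by
    intro k _
    rw [Finset.sum_add_distrib, Finset.sum_add_distrib, add_assoc]
    refine add_le_add le_rfl ?_
    have := shiftq d (fun m => f ((k : ℤ) + m)) (fun _ => f0 _) (fun _ => fA _) N
    refine le_trans (le_of_eq ?_) this
    refine Finset.sum_congr rfl fun l _ => ?_
    congr 1; ring
  have s2 := Finset.sum_le_sum s1
  rw [Finset.sum_add_distrib, Finset.sum_const, Nat.card_Icc, Nat.add_sub_cancel,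
    nsmul_eq_mul] at s2
  have s3 := mul_le_mul_of_nonneg_left s2 (show 0 ≤ (N : ℝ)⁻¹ * (N : ℝ)⁻¹ by positivity)
  have e1 : ∑ k ∈ Finset.Icc 1 N, ∑ l ∈ Finset.Icc 1 N,
      (N : ℝ)⁻¹ * (N : ℝ)⁻¹ * (f ((k : ℤ) - l) + f (d + (k : ℤ) + l)) =
      (N : ℝ)⁻¹ * (N : ℝ)⁻¹ * ∑ k ∈ Finset.Icc 1 N, ∑ l ∈ Finset.Icc 1 N,
        (f ((k : ℤ) - l) + f (d + (k : ℤ) + l)) := by
    simp only [← Finset.mul_sum]
  rw [e1]
  refine s3.trans (le_of_eq ?_)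
  rw [mul_add]
  field_simp

/-- the cross terms for a fixed `N`, with a shift -/
lemma lemXd {f : ℤ → ℝ} {A : ℝ} (f0 : ∀ k, 0 ≤ f k) (fA : ∀ k, f k ≤ A)
    (fn : ∀ k, f (-k) = f k)
    (h : Tendsto (fun N : ℕ => ((N : ℝ) ^ 2)⁻¹ * ∑ j ∈ Finset.Icc 1 N, ∑ k ∈ Finset.Icc 1 N,
      (f ((j : ℤ) - k) + f ((j : ℤ) + k))) atTop (𝓝 0)) (d : ℤ) (N : ℕ) :
    Tendsto (fun N' : ℕ => ∑ k ∈ Finset.Icc 1 N, ∑ l ∈ Finset.Icc 1 N',
      (N : ℝ)⁻¹ * (N' : ℝ)⁻¹ * (f ((k : ℤ) - l) + f (d + (k : ℤ) + l))) atTop (𝓝 0) := by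
  have hF := lemF f0 h
  have inv0 := tendsto_inv_atTop_nhds_zero_nat (𝕜 := ℝ)
  have e0 : (0 : ℝ) = ∑ k ∈ Finset.Icc 1 N, (0 : ℝ) := by simp
  rw [e0]
  refine tendsto_finsetSum _ fun k _ => ?_
  have l1 : Tendsto (fun N' : ℕ => (N : ℝ)⁻¹ * (2 * ((N' : ℝ)⁻¹ * ∑ j ∈ Finset.Icc 1 N',
      f (j : ℤ)) + ((N' : ℝ)⁻¹ * ((k : ℝ) * A) + (N' : ℝ)⁻¹ * (|((d + k : ℤ) : ℝ)| * A))))
      atTop (𝓝 0) := by
    have := ((hF.const_mul 2).add ((inv0.mul_const ((k : ℝ) * A)).add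
      (inv0.mul_const (|((d + k : ℤ) : ℝ)| * A)))).const_mul ((N : ℝ)⁻¹)
    simpa using this
  refine squeeze_zero (fun N' => Finset.sum_nonneg fun l _ =>
    mul_nonneg (by positivity) (add_nonneg (f0 _) (f0 _))) (fun N' => ?_) l1
  rw [← Finset.mul_sum, Finset.sum_add_distrib]
  have s1 : ∑ l ∈ Finset.Icc 1 N', f ((k : ℤ) - l) ≤
      (∑ j ∈ Finset.Icc 1 N', f (j : ℤ)) + (k : ℝ) * A := by
    have := shiftq (-(k : ℤ)) f f0 fA N'
    have e1 : |((-(k : ℤ) : ℤ) : ℝ)| = (k : ℝ) := by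
      push_cast; rw [abs_neg]; exact abs_of_nonneg (by positivity)
    rw [e1] at this
    refine le_trans (le_of_eq ?_) this
    refine Finset.sum_congr rfl fun l _ => ?_
    rw [← fn]; congr 1; ring
  have s2 : ∑ l ∈ Finset.Icc 1 N', f (d + (k : ℤ) + l) ≤
      (∑ j ∈ Finset.Icc 1 N', f (j : ℤ)) + |((d + k : ℤ) : ℝ)| * A := by
    have := shiftq (d + k : ℤ) f f0 fA N'
    refine le_trans (le_of_eq ?_) this
    refine Finset.sum_congr rfl fun l _ => ?_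
    congr 1; ring
  have s3 := mul_le_mul_of_nonneg_left (add_le_add s1 s2)
    (show 0 ≤ (N : ℝ)⁻¹ * (N' : ℝ)⁻¹ by positivity)
  refine s3.trans (le_of_eq ?_)
  ring

/-- differences of combinations -/
lemma FA_difg (w : ℤ → ℕ → ℂ → ℂ) (i j : ℤ) {s s' : Finset ℤ} (hs : s ⊆ s') (α α' : ℤ → ℂ)
    (n : ℕ) (z : ℂ) :
    FA w i j s α n z - FA w i j s' α' n z =
      FA w i j s' (fun k => (if k ∈ s then α k else 0) - α' k) n z := by
  unfold FA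
  simp only [sub_mul, Finset.sum_sub_distrib, ite_mul, zero_mul]
  rw [Finset.sum_ite_mem, Finset.inter_eq_right.2 hs]

/-- the cross terms of a difference -/
lemma Swg_dif (M : ℕ → ℂ → ℂ) {φ : ℂ → ℝ} (hφ0 : ∀ z, 0 ≤ φ z) (i j : ℤ) {s s' : Finset ℤ}
    (hs : s ⊆ s') (α α' : ℤ → ℂ) :
    Swg M φ i j s' (fun k => (if k ∈ s then α k else 0) - α' k) ≤
      Swg M φ i j s α + Swg M φ i j s' α' +
      2 * ∑ k ∈ s, ∑ l ∈ s', ‖α k‖ * ‖α' l‖ * (fK M φ (k - l) + fK M φ (i - j + k + l)) := by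
  obtain ⟨g, hg⟩ : ∃ g : ℤ → ℤ → ℝ, g = fun k l => fK M φ (k - l) + fK M φ (i - j + k + l) :=
    ⟨_, rfl⟩
  have g0 : ∀ k l, 0 ≤ g k l := fun k l => by
    rw [hg]; exact add_nonneg (fK_nn hφ0 _) (fK_nn hφ0 _)
  have gs : ∀ k l, g k l = g l k := fun k l => by
    rw [hg]
    show fK M φ (k - l) + fK M φ (i - j + k + l) = fK M φ (l - k) + fK M φ (i - j + l + k)
    rw [← fK_neg φ (k - l), show -(k - l) = l - k by ring,
      show i - j + k + l = i - j + l + k by ring]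
  obtain ⟨b, hb⟩ : ∃ b : ℤ → ℝ, b = fun k => if k ∈ s then ‖α k‖ else 0 := ⟨_, rfl⟩
  have hb0 : ∀ k, 0 ≤ b k := fun k => by
    rw [hb]; show 0 ≤ if k ∈ s then ‖α k‖ else 0
    split_ifs
    · exact norm_nonneg _
    · exact le_rfl
  have hn : ∀ k, ‖(if k ∈ s then α k else 0) - α' k‖ ≤ b k + ‖α' k‖ := fun k => by
    refine (norm_sub_le _ _).trans (add_le_add (le_of_eq ?_) le_rfl)
    rw [hb]; show _ = if k ∈ s then ‖α k‖ else 0
    split_ifs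
    · rfl
    · exact norm_zero
  have e : ∀ k l, fK M φ (k - l) + fK M φ (i - j + k + l) = g k l := fun k l => by rw [hg]
  unfold Swg
  simp only [e]
  have h1 : ∑ k ∈ s', ∑ l ∈ s', ‖(if k ∈ s then α k else 0) - α' k‖ *
      ‖(if l ∈ s then α l else 0) - α' l‖ * g k l ≤
      ∑ k ∈ s', ∑ l ∈ s', (b k + ‖α' k‖) * (b l + ‖α' l‖) * g k l := by
    refine Finset.sum_le_sum fun k _ => Finset.sum_le_sum fun l _ => ?_
    refine mul_le_mul_of_nonneg_right ?_ (g0 k l)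
    exact mul_le_mul (hn k) (hn l) (norm_nonneg _) (add_nonneg (hb0 k) (norm_nonneg _))
  refine h1.trans (le_of_eq ?_)
  have h2 : ∑ k ∈ s', ∑ l ∈ s', (b k + ‖α' k‖) * (b l + ‖α' l‖) * g k l =
      (∑ k ∈ s', ∑ l ∈ s', b k * (b l * g k l)) + (∑ k ∈ s', ∑ l ∈ s', ‖α' k‖ * ‖α' l‖ * g k l) +
      ((∑ k ∈ s', ∑ l ∈ s', b k * (‖α' l‖ * g k l)) +
        ∑ k ∈ s', ∑ l ∈ s', b l * (‖α' k‖ * g k l)) := by
    simp only [← Finset.sum_add_distrib]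
    refine Finset.sum_congr rfl fun k _ => Finset.sum_congr rfl fun l _ => ?_
    ring
  have h3 : ∑ k ∈ s', ∑ l ∈ s', b l * (‖α' k‖ * g k l) =
      ∑ k ∈ s', ∑ l ∈ s', b k * (‖α' l‖ * g k l) := by
    rw [Finset.sum_comm]
    refine Finset.sum_congr rfl fun k _ => Finset.sum_congr rfl fun l _ => ?_
    rw [gs]
  have h4 : ∑ k ∈ s', ∑ l ∈ s', b k * (‖α' l‖ * g k l) =
      ∑ k ∈ s, ∑ l ∈ s', ‖α k‖ * ‖α' l‖ * g k l := by
    simp only [← Finset.mul_sum]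
    rw [hb, ite_sum hs (fun k => ‖α k‖)]
    refine Finset.sum_congr rfl fun k _ => ?_
    rw [Finset.mul_sum]
    refine Finset.sum_congr rfl fun l _ => ?_
    ring
  have h5 : ∑ k ∈ s', ∑ l ∈ s', b k * (b l * g k l) =
      ∑ k ∈ s, ∑ l ∈ s, ‖α k‖ * ‖α l‖ * g k l := by
    simp only [← Finset.mul_sum]
    rw [hb, ite_sum hs (fun k => ‖α k‖)]
    refine Finset.sum_congr rfl fun k _ => ?_
    rw [ite_sum hs (fun k => ‖α k‖), Finset.mul_sum]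
    refine Finset.sum_congr rfl fun l _ => ?_
    ring
  rw [h2, h3, h4, h5]
  ring

/-- **GE3.** -/
theorem ge3 (hGE1 : S_GE1) : S_GE3 := by
  intro m ν Ω a h u K T hyp φ hφ hφ0 i j ε hε
  have := hyp.mk1
  have hB : IsOpen (interior K) := isOpen_interior
  have hBΩ : interior K ⊆ Ω := interior_subset.trans hyp.hKΩ
  have hmB : ∀ K' : Set ℂ, IsCompact K' → K' ⊆ interior K → MemLp m 2 (volume.restrict K') :=
    fun K' hK' hKB => hyp.hm K' hK' (hKB.trans hBΩ)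
  have hpB : ∀ᵐ z ∂(volume.restrict (interior K)), par ea (ν z) = 0 :=
    ae_restrict_of_ae_restrict_of_subset hBΩ hyp.hp
  have cu : ∀ n, ContinuousOn (fun z => u n z ^ 4) K := fun n =>
    ((hyp.H.sm n).continuousOn.mono hyp.hKΩ).pow 4
  have T0 : ∀ n, 0 ≤ ∫ z in K, u n z ^ 4 := fun n => integral_nonneg fun z => by positivity
  have Tn : 0 ≤ T := by
    obtain ⟨n, hn⟩ := hyp.hT.exists
    exact (T0 n).trans hn
  obtain ⟨Mφ, hMφ⟩ := hφ.2.1.exists_bound_of_continuousOn hφ.1.continuous.continuousOn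
  have hφM : ∀ z, φ z ≤ |Mφ| := by
    intro z
    by_cases hz : z ∈ tsupport φ
    · exact (le_abs_self _).trans ((hMφ z hz).trans (le_abs_self _))
    · rw [image_eq_zero_of_notMem_tsupport hz]; exact abs_nonneg _
  obtain ⟨A, hAd⟩ : ∃ A : ℝ, A = ∫ z, φ z * (m z * m z) := ⟨_, rfl⟩
  have fA : ∀ k, fK (MM m ea ν) φ k ≤ A := fun k => by
    rw [hAd]; exact fK_MM (ν := ν) hmB hφ hφ0 k
  have f0 : ∀ k, 0 ≤ fK (MM m ea ν) φ k := fun k => fK_nn hφ0 k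
  have A0 : 0 ≤ A := (f0 0).trans (fA 0)
  have EC : ∀ᶠ n in atTop, (∫ z, φ z * u n z ^ 4) - 3 * A ≤ |Mφ| * T := by
    refine hyp.hT.mono fun n hn => ?_
    have i4 : Integrable (fun z => φ z * u n z ^ 4) :=
      Pool.Agent.W311.RW.int_mul hB hφ (((hyp.H.sm n).continuousOn.mono hBΩ).pow 4)
    have e3 : ∫ z, φ z * u n z ^ 4 ≤ |Mφ| * ∫ z in K, u n z ^ 4 := by
      rw [← integral_const_mul, ← integral_indicator hyp.hK.measurableSet]
      have i3 : IntegrableOn (fun z => |Mφ| * u n z ^ 4) K :=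
        (continuousOn_const.mul (cu n)).integrableOn_compact hyp.hK
      refine integral_mono i4 ((integrable_indicator_iff hyp.hK.measurableSet).2 i3) fun z => ?_
      by_cases hz : z ∈ K
      · rw [Set.indicator_of_mem hz]
        exact mul_le_mul_of_nonneg_right (hφM z) (by positivity)
      · rw [Set.indicator_of_notMem hz]
        show φ z * _ ≤ 0
        rw [TF.zero hφ (fun h => hz (interior_subset h)), zero_mul]
    have := mul_le_mul_of_nonneg_left hn (abs_nonneg Mφ)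
    linarith
  have MT0 : 0 ≤ |Mφ| * T := mul_nonneg (abs_nonneg _) Tn
  have hml : ∀ k, ML (interior K) (MM m ea ν k) := fun k => MM_ml ea_meas ea_norm hmB k
  have hSN := SN0 (ν := ν) hB hmB hpB hφ
  simp only [ss_fK hml hφ] at hSN
  have l1 := (lemS f0 fA hSN (i - j)).eventually
    (gt_mem_nhds (show (0 : ℝ) < ε / 8 by linarith))
  have l2 := (av_sg.mul_const (2 / 3 * (|Mφ| * T))).eventually
    (gt_mem_nhds (show 0 * (2 / 3 * (|Mφ| * T)) < ε / 8 by linarith))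
  obtain ⟨N0, hN0⟩ := eventually_atTop.1 ((l1.and l2).and (eventually_gt_atTop 0))
  refine ⟨N0, fun N hN => ?_⟩
  obtain ⟨⟨hN1, hN2⟩, hN3⟩ := hN0 N hN
  have l3 := ((lemXd f0 fA (fun k => fK_neg φ k) hSN (i - j) N).eventually
    (gt_mem_nhds (show (0 : ℝ) < ε / 16 by linarith))).and (eventually_ge_atTop N)
  obtain ⟨N1, hN1'⟩ := eventually_atTop.1 l3
  refine ⟨N1, fun N' hN' => ?_⟩
  obtain ⟨hX, hNN⟩ := hN1' N' hN'
  obtain ⟨⟨hM1, hM2⟩, hM3⟩ := hN0 N' (hN.trans hNN)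
  obtain ⟨s, hs⟩ : ∃ s : Finset ℤ, s = (Finset.Icc 1 N).map Nat.castEmbedding := ⟨_, rfl⟩
  obtain ⟨s', hs'⟩ : ∃ s' : Finset ℤ, s' = (Finset.Icc 1 N').map Nat.castEmbedding := ⟨_, rfl⟩
  have hss : s ⊆ s' := by
    rw [hs, hs']
    exact Finset.map_subset_map.2 (Finset.Icc_subset_Icc le_rfl hNN)
  obtain ⟨α, hα⟩ : ∃ α : ℤ → ℂ, α = fun k => (N : ℂ)⁻¹ * sg k := ⟨_, rfl⟩
  obtain ⟨α', hα'⟩ : ∃ α' : ℤ → ℂ, α' = fun k => (N' : ℂ)⁻¹ * sg k := ⟨_, rfl⟩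
  obtain ⟨β, hβ⟩ : ∃ β : ℤ → ℂ, β = fun k => (if k ∈ s then α k else 0) - α' k := ⟨_, rfl⟩
  have hFF : ∀ n z, FG a h u i j N n z - FG a h u i j N' n z =
      FA (ww a h (fun n z => (u n z : ℂ))) i j s' β n z := by
    intro n z
    rw [hβ, ← FA_difg _ i j hss, hα, hα', hs, hs']
    rfl
  have s1 : ∑ k ∈ s', sg k * β k = 0 := by
    rw [hβ]
    simp only [mul_sub, Finset.sum_sub_distrib]
    rw [ite_sumc hss α sg, hα, hα', hs, hs', sum_one hN3, sum_one hM3, sub_self]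
  have s2 : ‖∑ k ∈ s', β k‖ ^ 2 * (1 / 3 * (|Mφ| * T)) < ε / 8 + ε / 8 := by
    have e1 : ∑ k ∈ s', β k = (∑ k ∈ Finset.Icc 1 N, (N : ℂ)⁻¹ * sg (k : ℤ)) -
        ∑ k ∈ Finset.Icc 1 N', (N' : ℂ)⁻¹ * sg (k : ℤ) := by
      rw [hβ]
      simp only [Finset.sum_sub_distrib]
      have := ite_sumc hss α (fun _ => 1)
      simp only [one_mul] at this
      rw [this, hα, hα', hs, hs', Finset.sum_map, Finset.sum_map]
      rfl
    rw [e1]
    obtain ⟨x, hx⟩ : ∃ x : ℂ, x = ∑ k ∈ Finset.Icc 1 N, (N : ℂ)⁻¹ * sg (k : ℤ) := ⟨_, rfl⟩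
    obtain ⟨y, hy⟩ : ∃ y : ℂ, y = ∑ k ∈ Finset.Icc 1 N', (N' : ℂ)⁻¹ * sg (k : ℤ) := ⟨_, rfl⟩
    rw [← hx] at hN2 ⊢
    rw [← hy] at hM2 ⊢
    have h1 : ‖x - y‖ ^ 2 ≤ 2 * ‖x‖ ^ 2 + 2 * ‖y‖ ^ 2 := by
      have h2 := norm_sub_le x y
      have h3 := pow_le_pow_left₀ (norm_nonneg _) h2 2
      nlinarith [sq_nonneg (‖x‖ - ‖y‖)]
    have h4 := mul_le_mul_of_nonneg_right h1 (show 0 ≤ 1 / 3 * (|Mφ| * T) by positivity)
    linarith
  have s3 : Swg (MM m ea ν) φ i j s' β < ε / 8 + ε / 8 + ε / 8 := by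
    rw [hβ]
    refine (Swg_dif (MM m ea ν) hφ0 i j hss α α').trans_lt ?_
    have c1 : Swg (MM m ea ν) φ i j s α < ε / 8 := by
      refine lt_of_eq_of_lt ?_ hN1
      unfold Swg
      rw [hs, hα]
      simp only [Finset.sum_map, Nat.castEmbedding_apply, norm_mul, sg_norm, mul_one, norm_inv,
        Complex.norm_natCast]
    have c2 : Swg (MM m ea ν) φ i j s' α' < ε / 8 := by
      refine lt_of_eq_of_lt ?_ hM1
      unfold Swg
      rw [hs', hα']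
      simp only [Finset.sum_map, Nat.castEmbedding_apply, norm_mul, sg_norm, mul_one, norm_inv,
        Complex.norm_natCast]
    have c3 : ∑ k ∈ s, ∑ l ∈ s', ‖α k‖ * ‖α' l‖ *
        (fK (MM m ea ν) φ (k - l) + fK (MM m ea ν) φ (i - j + k + l)) < ε / 16 := by
      refine lt_of_eq_of_lt ?_ hX
      rw [hs, hs', hα, hα']
      simp only [Finset.sum_map, Nat.castEmbedding_apply, norm_mul, sg_norm, mul_one, norm_inv,
        Complex.norm_natCast]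
    linarith
  have ev := hGE1 hyp hφ hφ0 i j s' β (ε / (8 * (1 + T))) (by positivity)
  filter_upwards [ev, EC, hyp.hT] with n g2 g3 g4
  simp only [hFF]
  rw [← hAd, s1, norm_zero] at g2
  have g6 := (abs_le.1 g2).2
  have g7 : ε / (8 * (1 + T)) * (1 + ∫ z in K, u n z ^ 4) ≤ ε / 8 := by
    have h1 : ε / (8 * (1 + T)) * (1 + ∫ z in K, u n z ^ 4) ≤ ε / (8 * (1 + T)) * (1 + T) :=
      mul_le_mul_of_nonneg_left (by linarith) (by positivity)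
    refine h1.trans (le_of_eq ?_)
    have : (1 + T) ≠ 0 := by positivity
    field_simp
  have g8 : 1 / 3 * ‖∑ k ∈ s', β k‖ ^ 2 * ((∫ z, φ z * u n z ^ 4) - 3 * A) ≤
      ‖∑ k ∈ s', β k‖ ^ 2 * (1 / 3 * (|Mφ| * T)) := by
    have h1 := mul_le_mul_of_nonneg_left g3
      (show 0 ≤ 1 / 3 * ‖∑ k ∈ s', β k‖ ^ 2 by positivity)
    linarith
  have e8 : (∫ z, φ z * ‖cc (MM m ea ν) i j z‖ ^ 2) * (0 : ℝ) ^ 2 +
      (1 / 3 * ‖∑ k ∈ s', β k‖ ^ 2 + kap i j * (0 : ℝ) ^ 2) *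
      ((∫ z, φ z * u n z ^ 4) - 3 * A) =
      1 / 3 * ‖∑ k ∈ s', β k‖ ^ 2 * ((∫ z, φ z * u n z ^ 4) - 3 * A) := by ring
  rw [e8] at g6
  linarith

end

end Pool.Agent.P8H76.VC
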