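import Pool.Agent.P8H31.VC.Stm5
import Pool.Agent.P8H76.VC.GE3

/-!
Project VC (helper31), package FE3: the Cauchy property of the averages of the scaled sequence.
-/

set_option autoImplicit false
open MeasureTheory Filter Topology Complex ProbabilityTheory
open scoped ContDiff

namespace Pool.Agent.P8H76.VC

open Pool.Agent.W745.RW Pool.Agent.TH294.RS Pool.Agent.TH294.RG Pool.Agent.P8H31.NZ
open Pool.Agent.P8H31.VC

noncomputable section

/-- the averages of the scaled sequence -/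
lemma FG_sc {B : Set ℂ} (hB : IsOpen B) {a : ℂ → ℝ} (h : ℕ → ℝ) {u : ℕ → ℂ → ℝ}
    (ha : ContDiffOn ℝ ∞ a B) (hu : ∀ n, ContDiffOn ℝ ∞ (u n) B) (K : Set ℂ) (i j : ℤ) (N n : ℕ)
    {z : ℂ} (hz : z ∈ B) :
    FG a h (sc K u) i j N n z = ((fc K u n : ℂ)) ^ 2 * FG a h u i j N n z := by
  unfold FG FA
  rw [Finset.mul_sum]
  refine Finset.sum_congr rfl fun k _ => ?_
  rw [ww_sc hB h ha hu K _ n z hz, ww_sc hB h ha hu K _ n z hz]
  ring

/-- the squares of the differences of the averages -/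
lemma FG_sc_sq {K : Set ℂ} {a : ℂ → ℝ} (h : ℕ → ℝ) {u : ℕ → ℂ → ℝ}
    (ha : ContDiffOn ℝ ∞ a (interior K)) (hu : ∀ n, ContDiffOn ℝ ∞ (u n) (interior K))
    {φ : ℂ → ℝ} (hφ : TF (interior K) φ) (i j : ℤ) (N N' n : ℕ) :
    ∫ z, φ z * ‖FG a h (sc K u) i j N n z - FG a h (sc K u) i j N' n z‖ ^ 2 =
      fc K u n ^ 4 * ∫ z, φ z * ‖FG a h u i j N n z - FG a h u i j N' n z‖ ^ 2 := by
  rw [← integral_const_mul]
  congr 1
  funext z
  by_cases hz : z ∈ interior K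
  · rw [FG_sc isOpen_interior h ha hu K i j N n hz, FG_sc isOpen_interior h ha hu K i j N' n hz,
      ← mul_sub, norm_mul, norm_pow, Complex.norm_real, Real.norm_of_nonneg (fc_pos K u n).le]
    ring
  · rw [TF.zero hφ hz]
    ring

/-- **FE3.** -/
theorem fe3 (hFE1 : S_FE1) : S_FE3 := by
  intro m ν Ω a h u K hyp φ hφ hφ0 i j ε hε
  have := hyp.mk1
  have hB : IsOpen (interior K) := isOpen_interior
  have hBΩ : interior K ⊆ Ω := interior_subset.trans hyp.hKΩ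
  have hmB : ∀ K' : Set ℂ, IsCompact K' → K' ⊆ interior K → MemLp m 2 (volume.restrict K') :=
    fun K' hK' hKB => hyp.hm K' hK' (hKB.trans hBΩ)
  have hpB : ∀ᵐ z ∂(volume.restrict (interior K)), par ea (ν z) = 0 :=
    ae_restrict_of_ae_restrict_of_subset hBΩ hyp.hp
  have cu : ∀ n, ContinuousOn (fun z => u n z ^ 4) K := fun n =>
    ((hyp.H.sm n).continuousOn.mono hyp.hKΩ).pow 4
  have T0 : ∀ n, 0 ≤ ∫ z in K, u n z ^ 4 := fun n => integral_nonneg fun z => by positivity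
  have F0 : ∀ n, 0 ≤ fc K u n ^ 4 := fun n => pow_nonneg (fc_pos K u n).le 4
  have F1 : ∀ n, fc K u n ^ 4 ≤ 1 := fun n => pow_le_one₀ (fc_pos K u n).le (fc_le K u n)
  obtain ⟨Mφ, hMφ⟩ := hφ.2.1.exists_bound_of_continuousOn hφ.1.continuous.continuousOn
  have hφM : ∀ z, φ z ≤ |Mφ| := by
    intro z
    by_cases hz : z ∈ tsupport φ
    · exact (le_abs_self _).trans ((hMφ z hz).trans (le_abs_self _))
    · rw [image_eq_zero_of_notMem_tsupport hz]; exact abs_nonneg _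
  obtain ⟨A, hAd⟩ : ∃ A : ℝ, A = ∫ z, φ z * (m z * m z) := ⟨_, rfl⟩
  have fA : ∀ k, fK (MM m ea ν) φ k ≤ A := fun k => by
    rw [hAd]; exact fK_MM (ν := ν) hmB hφ hφ0 k
  have f0 : ∀ k, 0 ≤ fK (MM m ea ν) φ k := fun k => fK_nn hφ0 k
  have A0 : 0 ≤ A := (f0 0).trans (fA 0)
  have EC : ∀ n, fc K u n ^ 4 * ((∫ z, φ z * u n z ^ 4) - 3 * A) ≤ |Mφ| := by
    intro n
    have i4 : Integrable (fun z => φ z * u n z ^ 4) :=
      Pool.Agent.W311.RW.int_mul hB hφ (((hyp.H.sm n).continuousOn.mono hBΩ).pow 4)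
    have e3 : ∫ z, φ z * u n z ^ 4 ≤ |Mφ| * ∫ z in K, u n z ^ 4 := by
      rw [← integral_const_mul, ← integral_indicator hyp.hK.measurableSet]
      have i3 : IntegrableOn (fun z => |Mφ| * u n z ^ 4) K :=
        (continuousOn_const.mul (cu n)).integrableOn_compact hyp.hK
      refine integral_mono i4 ((integrable_indicator_iff hyp.hK.measurableSet).2 i3) fun z => ?_
      by_cases hz : z ∈ K
      · rw [Set.indicator_of_mem hz]
        exact mul_le_mul_of_nonneg_right (hφM z) (by positivity)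
      · rw [Set.indicator_of_notMem hz]
        show φ z * _ ≤ 0
        rw [TF.zero hφ (fun h => hz (interior_subset h)), zero_mul]
    have e4 : (∫ z, φ z * u n z ^ 4) - 3 * A ≤ |Mφ| * (1 + ∫ z in K, u n z ^ 4) := by
      have := abs_nonneg Mφ
      linarith
    have e5 := mul_le_mul_of_nonneg_left e4 (F0 n)
    have e6 := fc_mul K u n
    calc fc K u n ^ 4 * ((∫ z, φ z * u n z ^ 4) - 3 * A) ≤
        fc K u n ^ 4 * (|Mφ| * (1 + ∫ z in K, u n z ^ 4)) := e5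
      _ = |Mφ| * (fc K u n ^ 4 * (1 + ∫ z in K, u n z ^ 4)) := by ring
      _ = |Mφ| := by rw [e6, mul_one]
  have MT0 : 0 ≤ |Mφ| := abs_nonneg _
  have hml : ∀ k, ML (interior K) (MM m ea ν k) := fun k => MM_ml ea_meas ea_norm hmB k
  have hSN := SN0 (ν := ν) hB hmB hpB hφ
  simp only [ss_fK hml hφ] at hSN
  have l1 := (lemS f0 fA hSN (i - j)).eventually
    (gt_mem_nhds (show (0 : ℝ) < ε / 8 by linarith))
  have l2 := (av_sg.mul_const (2 / 3 * |Mφ|)).eventually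
    (gt_mem_nhds (show 0 * (2 / 3 * |Mφ|) < ε / 8 by linarith))
  obtain ⟨N0, hN0⟩ := eventually_atTop.1 ((l1.and l2).and (eventually_gt_atTop 0))
  refine ⟨N0, fun N hN => ?_⟩
  obtain ⟨⟨hN1, hN2⟩, hN3⟩ := hN0 N hN
  have l3 := ((lemXd f0 fA (fun k => fK_neg φ k) hSN (i - j) N).eventually
    (gt_mem_nhds (show (0 : ℝ) < ε / 16 by linarith))).and (eventually_ge_atTop N)
  obtain ⟨N1, hN1'⟩ := eventually_atTop.1 l3
  refine ⟨N1, fun N' hN' => ?_⟩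
  obtain ⟨hX, hNN⟩ := hN1' N' hN'
  obtain ⟨⟨hM1, hM2⟩, hM3⟩ := hN0 N' (hN.trans hNN)
  obtain ⟨s, hs⟩ : ∃ s : Finset ℤ, s = (Finset.Icc 1 N).map Nat.castEmbedding := ⟨_, rfl⟩
  obtain ⟨s', hs'⟩ : ∃ s' : Finset ℤ, s' = (Finset.Icc 1 N').map Nat.castEmbedding := ⟨_, rfl⟩
  have hss : s ⊆ s' := by
    rw [hs, hs']
    exact Finset.map_subset_map.2 (Finset.Icc_subset_Icc le_rfl hNN)
  obtain ⟨α, hα⟩ : ∃ α : ℤ → ℂ, α = fun k => (N : ℂ)⁻¹ * sg k := ⟨_, rfl⟩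
  obtain ⟨α', hα'⟩ : ∃ α' : ℤ → ℂ, α' = fun k => (N' : ℂ)⁻¹ * sg k := ⟨_, rfl⟩
  obtain ⟨β, hβ⟩ : ∃ β : ℤ → ℂ, β = fun k => (if k ∈ s then α k else 0) - α' k := ⟨_, rfl⟩
  have hFF : ∀ n z, FG a h u i j N n z - FG a h u i j N' n z =
      FA (ww a h (fun n z => (u n z : ℂ))) i j s' β n z := by
    intro n z
    rw [hβ, ← FA_difg _ i j hss, hα, hα', hs, hs']
    rfl
  have s1 : ∑ k ∈ s', sg k * β k = 0 := by
    rw [hβ]
    simp only [mul_sub, Finset.sum_sub_distrib]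
    rw [ite_sumc hss α sg, hα, hα', hs, hs', sum_one hN3, sum_one hM3, sub_self]
  have s2 : ‖∑ k ∈ s', β k‖ ^ 2 * (1 / 3 * |Mφ|) < ε / 8 + ε / 8 := by
    have e1 : ∑ k ∈ s', β k = (∑ k ∈ Finset.Icc 1 N, (N : ℂ)⁻¹ * sg (k : ℤ)) -
        ∑ k ∈ Finset.Icc 1 N', (N' : ℂ)⁻¹ * sg (k : ℤ) := by
      rw [hβ]
      simp only [Finset.sum_sub_distrib]
      have := ite_sumc hss α (fun _ => 1)
      simp only [one_mul] at this
      rw [this, hα, hα', hs, hs', Finset.sum_map, Finset.sum_map]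
      rfl
    rw [e1]
    obtain ⟨x, hx⟩ : ∃ x : ℂ, x = ∑ k ∈ Finset.Icc 1 N, (N : ℂ)⁻¹ * sg (k : ℤ) := ⟨_, rfl⟩
    obtain ⟨y, hy⟩ : ∃ y : ℂ, y = ∑ k ∈ Finset.Icc 1 N', (N' : ℂ)⁻¹ * sg (k : ℤ) := ⟨_, rfl⟩
    rw [← hx] at hN2 ⊢
    rw [← hy] at hM2 ⊢
    have h1 : ‖x - y‖ ^ 2 ≤ 2 * ‖x‖ ^ 2 + 2 * ‖y‖ ^ 2 := by
      have h2 := norm_sub_le x y
      have h3 := pow_le_pow_left₀ (norm_nonneg _) h2 2
      nlinarith [sq_nonneg (‖x‖ - ‖y‖)]
    have h4 := mul_le_mul_of_nonneg_right h1 (show 0 ≤ 1 / 3 * |Mφ| by positivity)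
    linarith
  have s3 : Swg (MM m ea ν) φ i j s' β < ε / 8 + ε / 8 + ε / 8 := by
    rw [hβ]
    refine (Swg_dif (MM m ea ν) hφ0 i j hss α α').trans_lt ?_
    have c1 : Swg (MM m ea ν) φ i j s α < ε / 8 := by
      refine lt_of_eq_of_lt ?_ hN1
      unfold Swg
      rw [hs, hα]
      simp only [Finset.sum_map, Nat.castEmbedding_apply, norm_mul, sg_norm, mul_one, norm_inv,
        Complex.norm_natCast]
    have c2 : Swg (MM m ea ν) φ i j s' α' < ε / 8 := by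
      refine lt_of_eq_of_lt ?_ hM1
      unfold Swg
      rw [hs', hα']
      simp only [Finset.sum_map, Nat.castEmbedding_apply, norm_mul, sg_norm, mul_one, norm_inv,
        Complex.norm_natCast]
    have c3 : ∑ k ∈ s, ∑ l ∈ s', ‖α k‖ * ‖α' l‖ *
        (fK (MM m ea ν) φ (k - l) + fK (MM m ea ν) φ (i - j + k + l)) < ε / 16 := by
      refine lt_of_eq_of_lt ?_ hX
      rw [hs, hs', hα, hα']
      simp only [Finset.sum_map, Nat.castEmbedding_apply, norm_mul, sg_norm, mul_one, norm_inv,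
        Complex.norm_natCast]
    linarith
  have hS0 : 0 ≤ Swg (MM m ea ν) φ i j s' β := by
    unfold Swg
    exact Finset.sum_nonneg fun k _ => Finset.sum_nonneg fun l _ =>
      mul_nonneg (by positivity) (add_nonneg (f0 _) (f0 _))
  have ev := hFE1 hyp hφ hφ0 i j s' β (ε / 8) (by linarith)
  filter_upwards [ev] with n g2
  rw [FG_sc_sq h (hyp.H.sa.mono hBΩ) (fun n => (hyp.H.sm n).mono hBΩ) hφ]
  simp only [hFF]
  rw [← hAd, s1, norm_zero] at g2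
  have g6 := (abs_le.1 g2).2
  have e8 : (∫ z, φ z * ‖cc (MM m ea ν) i j z‖ ^ 2) * (0 : ℝ) ^ 2 +
      (1 / 3 * ‖∑ k ∈ s', β k‖ ^ 2 + kap i j * (0 : ℝ) ^ 2) *
      ((∫ z, φ z * u n z ^ 4) - 3 * A) =
      1 / 3 * ‖∑ k ∈ s', β k‖ ^ 2 * ((∫ z, φ z * u n z ^ 4) - 3 * A) := by ring
  rw [e8] at g6
  have g9 := mul_le_mul_of_nonneg_left (sub_le_iff_le_add.1 g6) (F0 n)
  refine g9.trans ?_
  have g10 : fc K u n ^ 4 * (Swg (MM m ea ν) φ i j s' β) ≤ Swg (MM m ea ν) φ i j s' β :=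
    mul_le_of_le_one_left hS0 (F1 n)
  have g11 : fc K u n ^ 4 * (ε / 8 * (1 + ∫ z in K, u n z ^ 4)) = ε / 8 := by
    rw [mul_left_comm, fc_mul, mul_one]
  have g12 : fc K u n ^ 4 * (1 / 3 * ‖∑ k ∈ s', β k‖ ^ 2 * ((∫ z, φ z * u n z ^ 4) - 3 * A)) ≤
      ‖∑ k ∈ s', β k‖ ^ 2 * (1 / 3 * |Mφ|) := by
    have h1 := mul_le_mul_of_nonneg_left (EC n)
      (show 0 ≤ 1 / 3 * ‖∑ k ∈ s', β k‖ ^ 2 by positivity)
    calc fc K u n ^ 4 * (1 / 3 * ‖∑ k ∈ s', β k‖ ^ 2 * ((∫ z, φ z * u n z ^ 4) - 3 * A)) =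
        1 / 3 * ‖∑ k ∈ s', β k‖ ^ 2 * (fc K u n ^ 4 * ((∫ z, φ z * u n z ^ 4) - 3 * A)) := by ring
      _ ≤ _ := h1
      _ = _ := by ring
  rw [mul_add, mul_add, g11]
  linarith

end

end Pool.Agent.P8H76.VC
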