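import Pool.Agent.P8H31.VC.Stm4
import Pool.Agent.P8H76.VC.E4

/-!
Project VC (helper31), package GE4: the averages with general weights vary slowly.
-/

set_option autoImplicit false
open MeasureTheory Filter Topology Complex ProbabilityTheory
open scoped ContDiff

namespace Pool.Agent.P8H76.VC

open Pool.Agent.W745.RW Pool.Agent.TH294.RS Pool.Agent.TH294.RG Pool.Agent.P8H31.NZ
open Pool.Agent.P8H31.VC

noncomputable section

/-- the operator on finite sums of products -/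
lemma DM_sum {ι : Type*} (a : ℂ → ℝ) (t : ℝ) (s : Finset ι) (c : ι → ℂ) (f g : ι → ℂ → ℂ) {z : ℂ}
    (hf : ∀ i, DifferentiableAt ℝ (f i) z) (hg : ∀ i, DifferentiableAt ℝ (g i) z) :
    DM a t (fun z => ∑ i ∈ s, c i * (f i z * g i z)) z =
      ∑ i ∈ s, c i * (DM a t (f i) z * g i z + f i z * DM a t (g i) z) := by
  have e : ∀ v, fderiv ℝ (fun z => ∑ i ∈ s, c i * (f i z * g i z)) z v =
      ∑ i ∈ s, c i * (fderiv ℝ (f i) z v * g i z + f i z * fderiv ℝ (g i) z v) := by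
    intro v
    have h1 : HasFDerivAt (fun z => ∑ i ∈ s, c i * (f i z * g i z))
        (∑ i ∈ s, c i • (f i z • fderiv ℝ (g i) z + g i z • fderiv ℝ (f i) z)) z :=
      HasFDerivAt.fun_sum fun i _ =>
        (((hf i).hasFDerivAt.mul (hg i).hasFDerivAt).const_mul (c i))
    rw [h1.fderiv]
    simp only [sum_apply, smul_apply, add_apply, smul_eq_mul]
    refine Finset.sum_congr rfl fun i _ => ?_
    ring
  simp only [DM, db, dx, dy, e]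
  rw [Finset.mul_sum, ← Finset.sum_add_distrib, Finset.mul_sum, Finset.mul_sum]
  refine Finset.sum_congr rfl fun i _ => ?_
  ring

/-- the sum of the squares of the two operators -/
lemma par_sq (a : ℂ → ℝ) (t : ℝ) (f : ℂ → ℂ) (z : ℂ) :
    ‖DP a t f z‖ ^ 2 + ‖DM a t f z‖ ^ 2 =
      2 * a z ^ 2 * (t ^ 2 * (‖fderiv ℝ f z 1‖ ^ 2 + ‖fderiv ℝ f z I‖ ^ 2)) := by
  simp only [DP, DM, dd, db, dx, dy]
  simp only [Complex.sq_norm, normSq_apply, mul_re, mul_im, sub_re, sub_im, add_re, add_im,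
    ofReal_re, ofReal_im, I_re, I_im]
  ring

/-- derivatives of the real and the imaginary part -/
lemma part_re {f : ℂ → ℂ} {z : ℂ} (hf : DifferentiableAt ℝ f z) (t : ℝ) (v : ℂ) :
    (t * fderiv ℝ (fun z => (f z).re) z v) ^ 2 ≤ t ^ 2 * ‖fderiv ℝ f z v‖ ^ 2 := by
  have h1 : HasFDerivAt (fun z => (f z).re) (reCLM.comp (fderiv ℝ f z)) z :=
    (reCLM.hasFDerivAt (x := f z)).comp z hf.hasFDerivAt
  rw [h1.fderiv, mul_pow]
  refine mul_le_mul_of_nonneg_left ?_ (sq_nonneg t)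
  show ((fderiv ℝ f z v).re) ^ 2 ≤ _
  rw [Complex.sq_norm, normSq_apply]
  nlinarith [sq_nonneg ((fderiv ℝ f z v).im)]

lemma part_im {f : ℂ → ℂ} {z : ℂ} (hf : DifferentiableAt ℝ f z) (t : ℝ) (v : ℂ) :
    (t * fderiv ℝ (fun z => (f z).im) z v) ^ 2 ≤ t ^ 2 * ‖fderiv ℝ f z v‖ ^ 2 := by
  have h1 : HasFDerivAt (fun z => (f z).im) (imCLM.comp (fderiv ℝ f z)) z :=
    (imCLM.hasFDerivAt (x := f z)).comp z hf.hasFDerivAt
  rw [h1.fderiv, mul_pow]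
  refine mul_le_mul_of_nonneg_left ?_ (sq_nonneg t)
  show ((fderiv ℝ f z v).im) ^ 2 ≤ _
  rw [Complex.sq_norm, normSq_apply]
  nlinarith [sq_nonneg ((fderiv ℝ f z v).re)]

/-- the pointwise bound -/
def bnd (N : ℕ) (t : ℝ) (w1 w2 w3 w4 E : ℂ → ℂ) (z : ℂ) : ℝ :=
  3 / (2 * (N : ℝ) ^ 2) * (‖w1 z‖ ^ 4 + ‖w2 z‖ ^ 4 + (‖w3 z‖ ^ 4 + ‖w4 z‖ ^ 4)) +
    3 * t ^ 2 * ‖E z‖ ^ 2

lemma bnd_pt {N : ℕ} (hN : 0 < N) (t : ℝ) {w1 w2 w3 w4 E : ℂ → ℂ} {s D : ℂ} (hs : ‖s‖ = 1)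
    {z : ℂ} (hD : D = (N : ℂ)⁻¹ * (s * (w1 z * w2 z) - w3 z * w4 z) + (t : ℂ) * E z) :
    ‖D‖ ^ 2 ≤ bnd N t w1 w2 w3 w4 E z := by
  have hN' : (0 : ℝ) < N := by exact_mod_cast hN
  unfold bnd
  rw [hD]
  obtain ⟨x, hx⟩ : ∃ x : ℂ, x = s * (w1 z * w2 z) := ⟨_, rfl⟩
  obtain ⟨y, hy⟩ : ∃ y : ℂ, y = w3 z * w4 z := ⟨_, rfl⟩
  rw [← hx, ← hy]
  have h1 : ‖(N : ℂ)⁻¹ * (x - y) + (t : ℂ) * E z‖ ≤
      (N : ℝ)⁻¹ * ‖x‖ + (N : ℝ)⁻¹ * ‖y‖ + |t| * ‖E z‖ := by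
    refine (norm_add_le _ _).trans (add_le_add ?_ (le_of_eq ?_))
    · rw [norm_mul, norm_inv, Complex.norm_natCast, ← mul_add]
      exact mul_le_mul_of_nonneg_left (norm_sub_le _ _) (by positivity)
    · rw [norm_mul, norm_real, Real.norm_eq_abs]
  have h2 := pow_le_pow_left₀ (norm_nonneg _) h1 2
  have h3 : ((N : ℝ)⁻¹ * ‖x‖ + (N : ℝ)⁻¹ * ‖y‖ + |t| * ‖E z‖) ^ 2 ≤
      3 * (((N : ℝ)⁻¹ * ‖x‖) ^ 2 + ((N : ℝ)⁻¹ * ‖y‖) ^ 2 + (|t| * ‖E z‖) ^ 2) := by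
    nlinarith [sq_nonneg ((N : ℝ)⁻¹ * ‖x‖ - (N : ℝ)⁻¹ * ‖y‖),
      sq_nonneg ((N : ℝ)⁻¹ * ‖x‖ - |t| * ‖E z‖),
      sq_nonneg ((N : ℝ)⁻¹ * ‖y‖ - |t| * ‖E z‖)]
  have h4 : ‖x‖ ^ 2 ≤ (‖w1 z‖ ^ 4 + ‖w2 z‖ ^ 4) / 2 := by
    rw [hx, norm_mul, norm_mul, hs, one_mul]
    nlinarith [sq_nonneg (‖w1 z‖ ^ 2 - ‖w2 z‖ ^ 2)]
  have h5 : ‖y‖ ^ 2 ≤ (‖w3 z‖ ^ 4 + ‖w4 z‖ ^ 4) / 2 := by
    rw [hy, norm_mul]
    nlinarith [sq_nonneg (‖w3 z‖ ^ 2 - ‖w4 z‖ ^ 2)]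
  have h6 : (0 : ℝ) ≤ 3 * ((N : ℝ)⁻¹) ^ 2 := by positivity
  have h7 := mul_le_mul_of_nonneg_left (add_le_add h4 h5) h6
  refine h2.trans (h3.trans ?_)
  have h8 : 3 * (((N : ℝ)⁻¹ * ‖x‖) ^ 2 + ((N : ℝ)⁻¹ * ‖y‖) ^ 2 + (|t| * ‖E z‖) ^ 2) =
      3 * ((N : ℝ)⁻¹) ^ 2 * (‖x‖ ^ 2 + ‖y‖ ^ 2) + 3 * t ^ 2 * ‖E z‖ ^ 2 := by
    rw [mul_pow |t|, sq_abs]; ring
  rw [h8]
  refine add_le_add (h7.trans (le_of_eq ?_)) le_rfl
  field_simp

lemma bnd_int {B : Set ℂ} (hB : IsOpen B) {ψ : ℂ → ℝ} (hψ : TF B ψ) {N : ℕ} (hN : 0 < N)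
    {t C0 Q : ℝ} {w1 w2 w3 w4 E : ℂ → ℂ} (c1 : ContinuousOn w1 B) (c2 : ContinuousOn w2 B)
    (c3 : ContinuousOn w3 B) (c4 : ContinuousOn w4 B) (cE : ContinuousOn E B)
    (q1 : ∫ z, ψ z * ‖w1 z‖ ^ 4 ≤ C0) (q2 : ∫ z, ψ z * ‖w2 z‖ ^ 4 ≤ C0)
    (q3 : ∫ z, ψ z * ‖w3 z‖ ^ 4 ≤ C0) (q4 : ∫ z, ψ z * ‖w4 z‖ ^ 4 ≤ C0)
    (qE : ∫ z, ψ z * ‖E z‖ ^ 2 ≤ Q) (q0 : 3 * t ^ 2 * Q < 1 / (N : ℝ) ^ 2) :
    Integrable (fun z => ψ z * bnd N t w1 w2 w3 w4 E z) ∧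
      ∫ z, ψ z * bnd N t w1 w2 w3 w4 E z ≤ (6 * C0 + 1) / (N : ℝ) ^ 2 := by
  have hN' : (0 : ℝ) < N := by exact_mod_cast hN
  have i4 : ∀ {w : ℂ → ℂ}, ContinuousOn w B → Integrable (fun z => ψ z * ‖w z‖ ^ 4) := fun c =>
    Pool.Agent.W311.RW.int_mul hB hψ (c.norm.pow 4)
  have iE : Integrable (fun z => ψ z * ‖E z‖ ^ 2) :=
    Pool.Agent.W311.RW.int_mul hB hψ (cE.norm.pow 2)
  have i5 : Integrable (fun z => ψ z * ‖w1 z‖ ^ 4 + ψ z * ‖w2 z‖ ^ 4) := (i4 c1).add (i4 c2)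
  have i6 : Integrable (fun z => ψ z * ‖w3 z‖ ^ 4 + ψ z * ‖w4 z‖ ^ 4) := (i4 c3).add (i4 c4)
  have i7 : Integrable (fun z => (ψ z * ‖w1 z‖ ^ 4 + ψ z * ‖w2 z‖ ^ 4) +
      (ψ z * ‖w3 z‖ ^ 4 + ψ z * ‖w4 z‖ ^ 4)) := i5.add i6
  have e : (fun z => ψ z * bnd N t w1 w2 w3 w4 E z) = fun z =>
      3 / (2 * (N : ℝ) ^ 2) * ((ψ z * ‖w1 z‖ ^ 4 + ψ z * ‖w2 z‖ ^ 4) +
      (ψ z * ‖w3 z‖ ^ 4 + ψ z * ‖w4 z‖ ^ 4)) + 3 * t ^ 2 * (ψ z * ‖E z‖ ^ 2) := by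
    funext z
    unfold bnd
    ring
  rw [e]
  refine ⟨(i7.const_mul _).add (iE.const_mul _), ?_⟩
  rw [integral_add (i7.const_mul _) (iE.const_mul _), integral_const_mul, integral_const_mul,
    integral_add i5 i6, integral_add (i4 c1) (i4 c2), integral_add (i4 c3) (i4 c4)]
  have f1 := mul_le_mul_of_nonneg_left (add_le_add (add_le_add q1 q2) (add_le_add q3 q4))
    (show 0 ≤ 3 / (2 * (N : ℝ) ^ 2) by positivity)
  have f2 := mul_le_mul_of_nonneg_left qE (show 0 ≤ 3 * t ^ 2 by positivity)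
  have f3 : 3 / (2 * (N : ℝ) ^ 2) * (C0 + C0 + (C0 + C0)) + 1 / (N : ℝ) ^ 2 =
      (6 * C0 + 1) / (N : ℝ) ^ 2 := by
    field_simp
    ring
  rw [← f3]
  exact add_le_add f1 (f2.trans q0.le)

/-- **GE4.** -/
theorem ge4 : S_GE4 := by
  intro m ν Ω a h u K T hyp χ hχ hχ0 i j
  have := hyp.mk1
  have hB : IsOpen (interior K) := isOpen_interior
  have hBΩ : interior K ⊆ Ω := interior_subset.trans hyp.hKΩ
  have hmB : ∀ K' : Set ℂ, IsCompact K' → K' ⊆ interior K → MemLp m 2 (volume.restrict K') :=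
    fun K' hK' hKB => hyp.hm K' hK' (hKB.trans hBΩ)
  have cu : ∀ n, ContinuousOn (fun z => u n z ^ 4) K := fun n =>
    ((hyp.H.sm n).continuousOn.mono hyp.hKΩ).pow 4
  have H1' : RawG (interior K) a h u (MM m ea ν) := hyp.H.cmp hBΩ tendsto_id
  have A' := H1'.as hB (fun k => ((MM_ml ea_meas ea_norm (B := interior K) (ν := ν) hmB) k))
    (fun z => by rw [MM_0, conj_ofReal])
    (fun K' hK' hKB => ⟨T, hyp.hT.mono fun n hn => by
      have : ∫ z in K', u n z ^ 4 ≤ ∫ z in K, u n z ^ 4 := by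
        refine setIntegral_mono_set ((cu _).integrableOn_compact hyp.hK)
          (ae_of_all _ fun z => by positivity) ?_
        exact (hKB.trans interior_subset).eventuallyLE
      linarith⟩)
  obtain ⟨w, hw⟩ : ∃ w : ℤ → ℕ → ℂ → ℂ, w = ww a h (fun n z => (u n z : ℂ)) := ⟨_, rfl⟩
  rw [← hw] at A'
  have cw : ∀ q n, ContinuousOn (w q n) (interior K) := fun q n => (A'.bd q).co n
  have ap : ∀ z ∈ interior K, 0 < a z := A'.pa
  obtain ⟨ψ, hψd⟩ : ∃ ψ : ℂ → ℝ, ψ = fun z => χ z * (a z ^ 2)⁻¹ := ⟨_, rfl⟩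
  have hψ : TF (interior K) ψ := by
    rw [hψd]
    exact TF.mulc hB hχ (ContDiffOn.inv (A'.sa.pow 2) fun z hz => pow_ne_zero 2 (ap z hz).ne')
  have hψ0 : ∀ z, 0 ≤ ψ z := fun z => by
    rw [hψd]; exact mul_nonneg (hχ0 z) (by positivity)
  obtain ⟨M, M0, hM⟩ := tf_max hψ
  obtain ⟨C0, hC0, hC⟩ := w4 hyp hψ hψ0
  rw [← hw] at hC
  choose e he he' using A'.up
  choose e2 he2 he2' using A'.dn
  refine ⟨6 * C0 + 1, fun N hN => ?_⟩
  have hN' : (0 : ℝ) < N := by exact_mod_cast hN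
  obtain ⟨EE, hEE⟩ : ∃ EE : ℕ → ℂ → ℂ, EE = fun n z => ∑ k ∈ Finset.Icc 1 N,
    ((N : ℂ)⁻¹ * sg (k : ℤ)) * (e (i + k) n z * w (j - k) n z +
      w (i + k) n z * e (j - k) n z) := ⟨_, rfl⟩
  obtain ⟨EM, hEM⟩ : ∃ EM : ℕ → ℂ → ℂ, EM = fun n z => ∑ k ∈ Finset.Icc 1 N,
    (-((N : ℂ)⁻¹ * sg (k : ℤ))) * (e2 (i + k) n z * w (j - k) n z +
      w (i + k) n z * e2 (j - k) n z) := ⟨_, rfl⟩
  have lE : LB (interior K) 2 EE := by
    rw [hEE]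
    exact LBsum _ fun k : ℕ => ((((he (i + k)).mul4 (A'.bd (j - k))).add
      ((A'.bd (i + k)).mul4 (he (j - k)))).cmul _)
  have lM : LB (interior K) 2 EM := by
    rw [hEM]
    exact LBsum _ fun k : ℕ => ((((he2 (i + k)).mul4 (A'.bd (j - k))).add
      ((A'.bd (i + k)).mul4 (he2 (j - k)))).cmul _)
  have e1 : ∀ n, FG a h u i j N n = fun z => ∑ k ∈ Finset.Icc 1 N, ((N : ℂ)⁻¹ * sg (k : ℤ)) *
      (w (i + k) n z * w (j - k) n z) := by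
    intro n
    funext z
    unfold FG FA
    rw [Finset.sum_map, hw]
    rfl
  -- the derivatives of the average
  have key : ∀ n, ∀ z ∈ interior K, DP a (h n) (FG a h u i j N n) z =
      (N : ℂ)⁻¹ * (sg (N : ℤ) * (w (i + N + 1) n z * w (j - N) n z) -
        w (i + 1) n z * w j n z) + (h n : ℂ) * EE n z := by
    intro n z hz
    rw [e1, DP_sum a (h n) _ _ (fun (k : ℕ) => w (i + k) n) (fun (k : ℕ) => w (j - k) n)
      (fun k => da hB ((A'.bd _).sm n) hz) (fun k => da hB ((A'.bd _).sm n) hz)]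
    have t1 := tele (fun k => w (i + k + 1) n z * w (j - k) n z) N
    simp only [add_zero, sub_zero] at t1
    rw [← t1, hEE, Finset.mul_sum]
    simp only [Finset.mul_sum]
    rw [← Finset.sum_add_distrib]
    refine Finset.sum_congr rfl fun k _ => ?_
    rw [he' (i + k) n z hz, he' (j - k) n z hz,
      show i + ((k : ℤ) - 1) + 1 = i + k by ring, show j - ((k : ℤ) - 1) = j - k + 1 by ring]
    ring
  have keyM : ∀ n, ∀ z ∈ interior K, -DM a (h n) (FG a h u i j N n) z =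
      (N : ℂ)⁻¹ * (sg (N : ℤ) * (w (i + N) n z * w (j - N - 1) n z) -
        w i n z * w (j - 1) n z) + (h n : ℂ) * EM n z := by
    intro n z hz
    rw [e1, DM_sum a (h n) _ _ (fun (k : ℕ) => w (i + k) n) (fun (k : ℕ) => w (j - k) n)
      (fun k => da hB ((A'.bd _).sm n) hz) (fun k => da hB ((A'.bd _).sm n) hz)]
    have t1 := tele (fun k => w (i + k) n z * w (j - k - 1) n z) N
    simp only [add_zero, sub_zero] at t1
    rw [← t1, hEM, Finset.mul_sum]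
    simp only [Finset.mul_sum]
    rw [← Finset.sum_add_distrib, ← Finset.sum_neg_distrib]
    refine Finset.sum_congr rfl fun k _ => ?_
    rw [he2' (i + k) n z hz, he2' (j - k) n z hz,
      show i + ((k : ℤ) - 1) = i + k - 1 by ring, show j - ((k : ℤ) - 1) - 1 = j - k by ring]
    ring
  -- the errors
  obtain ⟨D, hD⟩ := lE.bd _ hψ.2.1 hψ.2.2
  obtain ⟨D', hD'⟩ := lM.bd _ hψ.2.1 hψ.2.2
  have hlim : ∀ D : ℝ, Tendsto (fun n => 3 * (h n) ^ 2 * (M * |D|)) atTop (𝓝 0) := by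
    intro D
    have := ((A'.hlim.pow 2).const_mul 3).mul_const (M * |D|)
    simpa using this
  have ev0 := (hlim D).eventually (gt_mem_nhds (show (0 : ℝ) < 1 / (N : ℝ) ^ 2 by positivity))
  have ev1 := (hlim D').eventually (gt_mem_nhds (show (0 : ℝ) < 1 / (N : ℝ) ^ 2 by positivity))
  filter_upwards [ev0, ev1, hD, hD', (hC (i + N + 1)).and (hC (j - N)), (hC (i + 1)).and (hC j),
    (hC (i + N)).and (hC (j - N - 1)), (hC i).and (hC (j - 1))] with n q0 q0' q1 q1' p1 p2 p3 p4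
  have bE : ∫ z, ψ z * ‖EE n z‖ ^ 2 ≤ M * |D| := by
    refine (psi_bd hB hψ hM hψ.2.1 le_rfl (f := fun z => ‖EE n z‖ ^ 2) ((lE.co n).norm.pow 2)
      (((lE.co n).norm.pow 2).mono hψ.2.2) (fun z => by positivity)).trans ?_
    exact mul_le_mul_of_nonneg_left (q1.trans (le_abs_self _)) M0
  have bM : ∫ z, ψ z * ‖EM n z‖ ^ 2 ≤ M * |D'| := by
    refine (psi_bd hB hψ hM hψ.2.1 le_rfl (f := fun z => ‖EM n z‖ ^ 2) ((lM.co n).norm.pow 2)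
      (((lM.co n).norm.pow 2).mono hψ.2.2) (fun z => by positivity)).trans ?_
    exact mul_le_mul_of_nonneg_left (q1'.trans (le_abs_self _)) M0
  obtain ⟨iP, bP⟩ := bnd_int hB hψ hN (cw (i + N + 1) n) (cw (j - N) n) (cw (i + 1) n) (cw j n)
    (lE.co n) p1.1 p1.2 p2.1 p2.2 bE q0
  obtain ⟨iM, bM'⟩ := bnd_int hB hψ hN (cw (i + N) n) (cw (j - N - 1) n) (cw i n) (cw (j - 1) n)
    (lM.co n) p3.1 p3.2 p4.1 p4.2 bM q0'
  obtain ⟨bp, hbp⟩ : ∃ bp : ℂ → ℝ, bp = bnd N (h n) (w (i + N + 1) n) (w (j - N) n)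
    (w (i + 1) n) (w j n) (EE n) := ⟨_, rfl⟩
  obtain ⟨bm, hbm⟩ : ∃ bm : ℂ → ℝ, bm = bnd N (h n) (w (i + N) n) (w (j - N - 1) n)
    (w i n) (w (j - 1) n) (EM n) := ⟨_, rfl⟩
  rw [← hbp] at iP bP
  rw [← hbm] at iM bM'
  have main : ∀ g : ℂ → ℝ, (∀ z, 0 ≤ g z) → (∀ z ∈ interior K, DifferentiableAt ℝ
      (FG a h u i j N n) z → g z ≤ (h n) ^ 2 * (‖fderiv ℝ (FG a h u i j N n) z 1‖ ^ 2 +
        ‖fderiv ℝ (FG a h u i j N n) z I‖ ^ 2)) →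
      ∫ z, χ z * g z ≤ (6 * C0 + 1) / (N : ℝ) ^ 2 := by
    intro g g0 hg
    have i9 : Integrable (fun z => 1 / 2 * (ψ z * bp z + ψ z * bm z)) :=
      (iP.add iM).const_mul _
    have b9 : ∫ z, χ z * g z ≤ ∫ z, 1 / 2 * (ψ z * bp z + ψ z * bm z) := by
      refine integral_mono_of_nonneg (ae_of_all _ fun z => mul_nonneg (hχ0 z) (g0 z)) i9
        (ae_of_all _ fun z => ?_)
      show χ z * g z ≤ _
      by_cases hz : z ∈ interior K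
      · have dF : DifferentiableAt ℝ (FG a h u i j N n) z := by
          rw [e1]
          exact DifferentiableAt.fun_sum fun k _ => ((da hB ((A'.bd _).sm n) hz).mul
            (da hB ((A'.bd _).sm n) hz)).const_mul _
        have h1 := hg z hz dF
        have h2 := par_sq a (h n) (FG a h u i j N n) z
        have h3 : ‖DP a (h n) (FG a h u i j N n) z‖ ^ 2 ≤ bp z := by
          rw [hbp]
          exact bnd_pt hN (h n) (sg_norm _) (key n z hz)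
        have h4 : ‖DM a (h n) (FG a h u i j N n) z‖ ^ 2 ≤ bm z := by
          rw [hbm, ← norm_neg]
          exact bnd_pt hN (h n) (sg_norm _) (keyM n z hz)
        have a2 : 0 < a z ^ 2 := by
          have := ap z hz
          positivity
        have h5 : a z ^ 2 * g z ≤ 1 / 2 * (bp z + bm z) := by
          have := mul_le_mul_of_nonneg_left h1 a2.le
          linarith
        have h6 : χ z * g z = ψ z * (a z ^ 2 * g z) := by
          rw [hψd]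
          show _ = χ z * (a z ^ 2)⁻¹ * (a z ^ 2 * g z)
          have a3 : a z ≠ 0 := (ap z hz).ne'
          field_simp
        rw [h6]
        have h7 := mul_le_mul_of_nonneg_left h5 (hψ0 z)
        linarith
      · have z1 : χ z = 0 := TF.zero hχ hz
        have z2 : ψ z = 0 := TF.zero hψ hz
        simp only [z1, z2]
        simp
    refine b9.trans ?_
    rw [integral_const_mul, integral_add iP iM]
    linarith
  refine ⟨main _ (fun z => by positivity) fun z hz dF => ?_,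
    main _ (fun z => by positivity) fun z hz dF => ?_⟩
  · have h1 := part_re dF (h n) 1
    have h2 := part_re dF (h n) I
    rw [mul_add]
    exact add_le_add h1 h2
  · have h1 := part_im dF (h n) 1
    have h2 := part_im dF (h n) I
    rw [mul_add]
    exact add_le_add h1 h2

end

end Pool.Agent.P8H76.VC
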