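import Pool.Agent.P8H31.VC.Stm5
import Pool.Agent.P8H76.VC.GE4

/-!
Project VC (helper31), package FE4: the averages of the scaled sequence vary slowly.
-/

set_option autoImplicit false
open MeasureTheory Filter Topology Complex ProbabilityTheory
open scoped ContDiff

namespace Pool.Agent.P8H76.VC

open Pool.Agent.W745.RW Pool.Agent.TH294.RS Pool.Agent.TH294.RG Pool.Agent.P8H31.NZ
open Pool.Agent.P8H31.VC

noncomputable section

/-- the fourth moments of the scaled ladder are bounded uniformly in the frequency -/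
lemma w4s {m : ℂ → ℝ} {ν : Kernel ℂ ℝ} {Ω : Set ℂ} {a : ℂ → ℝ} {h : ℕ → ℝ}
    {u : ℕ → ℂ → ℝ} {K : Set ℂ} (hyp : HypF m ν Ω a h u K) {φ : ℂ → ℝ}
    (hφ : TF (interior K) φ) (hφ0 : ∀ z, 0 ≤ φ z) : ∃ C : ℝ, 0 ≤ C ∧ ∀ k : ℤ, ∀ᶠ n in atTop,
      ∫ z, φ z * ‖ww a h (fun n z => (sc K u n z : ℂ)) k n z‖ ^ 4 ≤ C := by
  have := hyp.mk1
  have hB : IsOpen (interior K) := isOpen_interior
  have hBΩ : interior K ⊆ Ω := interior_subset.trans hyp.hKΩ
  have hmB : ∀ K' : Set ℂ, IsCompact K' → K' ⊆ interior K → MemLp m 2 (volume.restrict K') :=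
    fun K' hK' hKB => hyp.hm K' hK' (hKB.trans hBΩ)
  have cu : ∀ n, ContinuousOn (fun z => u n z ^ 4) K := fun n =>
    ((hyp.H.sm n).continuousOn.mono hyp.hKΩ).pow 4
  have T0 : ∀ n, 0 ≤ ∫ z in K, u n z ^ 4 := fun n => integral_nonneg fun z => by positivity
  have F0 : ∀ n, 0 ≤ fc K u n ^ 4 := fun n => pow_nonneg (fc_pos K u n).le 4
  have F1 : ∀ n, fc K u n ^ 4 ≤ 1 := fun n => pow_le_one₀ (fc_pos K u n).le (fc_le K u n)
  obtain ⟨M, M0, hM⟩ := tf_max hφ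
  obtain ⟨A, hAd⟩ : ∃ A : ℝ, A = ∫ z, φ z * (m z * m z) := ⟨_, rfl⟩
  have hA2 : ∫ z, φ z * m z ^ 2 = A := by
    rw [hAd]; congr 1; funext z; ring
  have fA : ∀ k, fK (MM m ea ν) φ k ≤ A := fun k => by
    rw [hAd]; exact fK_MM (ν := ν) hmB hφ hφ0 k
  have f0 : ∀ k, 0 ≤ fK (MM m ea ν) φ k := fun k => fK_nn hφ0 k
  have A0 : 0 ≤ A := (f0 0).trans (fA 0)
  refine ⟨3 * A + (M + 1), by positivity, fun k => ?_⟩
  have ev := FA_sharp hyp.hm hyp.hp hyp.H hyp.hK hyp.hKΩ hφ hφ0 0 0 ⟨0, rfl⟩ {k} (fun _ => 1)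
    one_pos
  filter_upwards [ev] with n g2
  have e1 : ∀ z, φ z * ‖ww a h (fun n z => (sc K u n z : ℂ)) k n z‖ ^ 4 =
      fc K u n ^ 4 *
        (φ z * ‖FA (ww a h (fun n z => (u n z : ℂ))) 0 0 {k} (fun _ => 1) n z‖ ^ 2) := by
    intro z
    by_cases hz : z ∈ interior K
    · rw [ww_sc hB h (hyp.H.sa.mono hBΩ) (fun n => (hyp.H.sm n).mono hBΩ) K k n z hz]
      unfold FA
      rw [Finset.sum_singleton, one_mul, zero_add, zero_sub, norm_mul, norm_mul, ww_nrm,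
        Complex.norm_real, Real.norm_of_nonneg (fc_pos K u n).le]
      ring
    · rw [TF.zero hφ hz]
      ring
  simp only [e1]
  rw [integral_const_mul]
  have g3 : ∫ z, φ z * u n z ^ 4 ≤ M * ∫ z in K, u n z ^ 4 :=
    psi_bd hB hφ hM hyp.hK (hφ.2.2.trans interior_subset) (f := fun z => u n z ^ 4)
      (((hyp.H.sm n).continuousOn.mono hBΩ).pow 4) (cu n) (fun z => by positivity)
  have g5 : ∫ z, φ z * ‖FA (ww a h (fun n z => (u n z : ℂ))) 0 0 {k} (fun _ => 1) n z‖ ^ 2 ≤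
      3 * A + (M + 1) * (1 + ∫ z in K, u n z ^ 4) := by
    refine g2.trans ?_
    rw [← hAd, hA2]
    simp only [Finset.sum_singleton, norm_one, mul_one, sg_norm, one_pow, one_mul]
    have a1 := fA (k - k)
    have a2 := fA (0 - 0 + k + k)
    have e9 : (1 / 3 + 2 / 3 : ℝ) * ((∫ z, φ z * u n z ^ 4) - 3 * A) =
        (∫ z, φ z * u n z ^ 4) - 3 * A := by ring
    rw [e9]
    linarith
  refine (mul_le_mul_of_nonneg_left g5 (F0 n)).trans ?_
  have g6 : fc K u n ^ 4 * (3 * A) ≤ 3 * A :=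
    mul_le_of_le_one_left (by positivity) (F1 n)
  have g7 : fc K u n ^ 4 * ((M + 1) * (1 + ∫ z in K, u n z ^ 4)) = M + 1 := by
    rw [mul_left_comm, fc_mul, mul_one]
  rw [mul_add, g7]
  linarith

/-- **FE4.** -/
theorem fe4 (hAGZ : S_AGZ) : S_FE4 := by
  intro m ν Ω a h u K hyp χ hχ hχ0 i j
  have := hyp.mk1
  have hB : IsOpen (interior K) := isOpen_interior
  have hBΩ : interior K ⊆ Ω := interior_subset.trans hyp.hKΩ
  have A' := hAGZ hyp
  obtain ⟨w, hw⟩ : ∃ w : ℤ → ℕ → ℂ → ℂ, w = ww a h (fun n z => (sc K u n z : ℂ)) := ⟨_, rfl⟩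
  rw [← hw] at A'
  have cw : ∀ q n, ContinuousOn (w q n) (interior K) := fun q n => (A'.bd q).co n
  have ap : ∀ z ∈ interior K, 0 < a z := A'.pa
  obtain ⟨ψ, hψd⟩ : ∃ ψ : ℂ → ℝ, ψ = fun z => χ z * (a z ^ 2)⁻¹ := ⟨_, rfl⟩
  have hψ : TF (interior K) ψ := by
    rw [hψd]
    exact TF.mulc hB hχ (ContDiffOn.inv (A'.sa.pow 2) fun z hz => pow_ne_zero 2 (ap z hz).ne')
  have hψ0 : ∀ z, 0 ≤ ψ z := fun z => by
    rw [hψd]; exact mul_nonneg (hχ0 z) (by positivity)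
  obtain ⟨M, M0, hM⟩ := tf_max hψ
  obtain ⟨C0, hC0, hC⟩ := w4s hyp hψ hψ0
  rw [← hw] at hC
  choose e he he' using A'.up
  choose e2 he2 he2' using A'.dn
  refine ⟨6 * C0 + 1, fun N hN => ?_⟩
  have hN' : (0 : ℝ) < N := by exact_mod_cast hN
  obtain ⟨EE, hEE⟩ : ∃ EE : ℕ → ℂ → ℂ, EE = fun n z => ∑ k ∈ Finset.Icc 1 N,
    ((N : ℂ)⁻¹ * sg (k : ℤ)) * (e (i + k) n z * w (j - k) n z +
      w (i + k) n z * e (j - k) n z) := ⟨_, rfl⟩
  obtain ⟨EM, hEM⟩ : ∃ EM : ℕ → ℂ → ℂ, EM = fun n z => ∑ k ∈ Finset.Icc 1 N,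
    (-((N : ℂ)⁻¹ * sg (k : ℤ))) * (e2 (i + k) n z * w (j - k) n z +
      w (i + k) n z * e2 (j - k) n z) := ⟨_, rfl⟩
  have lE : LB (interior K) 2 EE := by
    rw [hEE]
    exact LBsum _ fun k : ℕ => ((((he (i + k)).mul4 (A'.bd (j - k))).add
      ((A'.bd (i + k)).mul4 (he (j - k)))).cmul _)
  have lM : LB (interior K) 2 EM := by
    rw [hEM]
    exact LBsum _ fun k : ℕ => ((((he2 (i + k)).mul4 (A'.bd (j - k))).add
      ((A'.bd (i + k)).mul4 (he2 (j - k)))).cmul _)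
  have e1 : ∀ n, FG a h (sc K u) i j N n = fun z => ∑ k ∈ Finset.Icc 1 N, ((N : ℂ)⁻¹ * sg (k : ℤ)) *
      (w (i + k) n z * w (j - k) n z) := by
    intro n
    funext z
    unfold FG FA
    rw [Finset.sum_map, hw]
    rfl
  -- the derivatives of the average
  have key : ∀ n, ∀ z ∈ interior K, DP a (h n) (FG a h (sc K u) i j N n) z =
      (N : ℂ)⁻¹ * (sg (N : ℤ) * (w (i + N + 1) n z * w (j - N) n z) -
        w (i + 1) n z * w j n z) + (h n : ℂ) * EE n z := by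
    intro n z hz
    rw [e1, DP_sum a (h n) _ _ (fun (k : ℕ) => w (i + k) n) (fun (k : ℕ) => w (j - k) n)
      (fun k => da hB ((A'.bd _).sm n) hz) (fun k => da hB ((A'.bd _).sm n) hz)]
    have t1 := tele (fun k => w (i + k + 1) n z * w (j - k) n z) N
    simp only [add_zero, sub_zero] at t1
    rw [← t1, hEE, Finset.mul_sum]
    simp only [Finset.mul_sum]
    rw [← Finset.sum_add_distrib]
    refine Finset.sum_congr rfl fun k _ => ?_
    rw [he' (i + k) n z hz, he' (j - k) n z hz,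
      show i + ((k : ℤ) - 1) + 1 = i + k by ring, show j - ((k : ℤ) - 1) = j - k + 1 by ring]
    ring
  have keyM : ∀ n, ∀ z ∈ interior K, -DM a (h n) (FG a h (sc K u) i j N n) z =
      (N : ℂ)⁻¹ * (sg (N : ℤ) * (w (i + N) n z * w (j - N - 1) n z) -
        w i n z * w (j - 1) n z) + (h n : ℂ) * EM n z := by
    intro n z hz
    rw [e1, DM_sum a (h n) _ _ (fun (k : ℕ) => w (i + k) n) (fun (k : ℕ) => w (j - k) n)
      (fun k => da hB ((A'.bd _).sm n) hz) (fun k => da hB ((A'.bd _).sm n) hz)]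
    have t1 := tele (fun k => w (i + k) n z * w (j - k - 1) n z) N
    simp only [add_zero, sub_zero] at t1
    rw [← t1, hEM, Finset.mul_sum]
    simp only [Finset.mul_sum]
    rw [← Finset.sum_add_distrib, ← Finset.sum_neg_distrib]
    refine Finset.sum_congr rfl fun k _ => ?_
    rw [he2' (i + k) n z hz, he2' (j - k) n z hz,
      show i + ((k : ℤ) - 1) = i + k - 1 by ring, show j - ((k : ℤ) - 1) - 1 = j - k by ring]
    ring
  -- the errors
  obtain ⟨D, hD⟩ := lE.bd _ hψ.2.1 hψ.2.2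
  obtain ⟨D', hD'⟩ := lM.bd _ hψ.2.1 hψ.2.2
  have hlim : ∀ D : ℝ, Tendsto (fun n => 3 * (h n) ^ 2 * (M * |D|)) atTop (𝓝 0) := by
    intro D
    have := ((A'.hlim.pow 2).const_mul 3).mul_const (M * |D|)
    simpa using this
  have ev0 := (hlim D).eventually (gt_mem_nhds (show (0 : ℝ) < 1 / (N : ℝ) ^ 2 by positivity))
  have ev1 := (hlim D').eventually (gt_mem_nhds (show (0 : ℝ) < 1 / (N : ℝ) ^ 2 by positivity))
  filter_upwards [ev0, ev1, hD, hD', (hC (i + N + 1)).and (hC (j - N)), (hC (i + 1)).and (hC j),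
    (hC (i + N)).and (hC (j - N - 1)), (hC i).and (hC (j - 1))] with n q0 q0' q1 q1' p1 p2 p3 p4
  have bE : ∫ z, ψ z * ‖EE n z‖ ^ 2 ≤ M * |D| := by
    refine (psi_bd hB hψ hM hψ.2.1 le_rfl (f := fun z => ‖EE n z‖ ^ 2) ((lE.co n).norm.pow 2)
      (((lE.co n).norm.pow 2).mono hψ.2.2) (fun z => by positivity)).trans ?_
    exact mul_le_mul_of_nonneg_left (q1.trans (le_abs_self _)) M0
  have bM : ∫ z, ψ z * ‖EM n z‖ ^ 2 ≤ M * |D'| := by
    refine (psi_bd hB hψ hM hψ.2.1 le_rfl (f := fun z => ‖EM n z‖ ^ 2) ((lM.co n).norm.pow 2)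
      (((lM.co n).norm.pow 2).mono hψ.2.2) (fun z => by positivity)).trans ?_
    exact mul_le_mul_of_nonneg_left (q1'.trans (le_abs_self _)) M0
  obtain ⟨iP, bP⟩ := bnd_int hB hψ hN (cw (i + N + 1) n) (cw (j - N) n) (cw (i + 1) n) (cw j n)
    (lE.co n) p1.1 p1.2 p2.1 p2.2 bE q0
  obtain ⟨iM, bM'⟩ := bnd_int hB hψ hN (cw (i + N) n) (cw (j - N - 1) n) (cw i n) (cw (j - 1) n)
    (lM.co n) p3.1 p3.2 p4.1 p4.2 bM q0'
  obtain ⟨bp, hbp⟩ : ∃ bp : ℂ → ℝ, bp = bnd N (h n) (w (i + N + 1) n) (w (j - N) n)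
    (w (i + 1) n) (w j n) (EE n) := ⟨_, rfl⟩
  obtain ⟨bm, hbm⟩ : ∃ bm : ℂ → ℝ, bm = bnd N (h n) (w (i + N) n) (w (j - N - 1) n)
    (w i n) (w (j - 1) n) (EM n) := ⟨_, rfl⟩
  rw [← hbp] at iP bP
  rw [← hbm] at iM bM'
  have main : ∀ g : ℂ → ℝ, (∀ z, 0 ≤ g z) → (∀ z ∈ interior K, DifferentiableAt ℝ
      (FG a h (sc K u) i j N n) z → g z ≤ (h n) ^ 2 * (‖fderiv ℝ (FG a h (sc K u) i j N n) z 1‖ ^ 2 +
        ‖fderiv ℝ (FG a h (sc K u) i j N n) z I‖ ^ 2)) →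
      ∫ z, χ z * g z ≤ (6 * C0 + 1) / (N : ℝ) ^ 2 := by
    intro g g0 hg
    have i9 : Integrable (fun z => 1 / 2 * (ψ z * bp z + ψ z * bm z)) :=
      (iP.add iM).const_mul _
    have b9 : ∫ z, χ z * g z ≤ ∫ z, 1 / 2 * (ψ z * bp z + ψ z * bm z) := by
      refine integral_mono_of_nonneg (ae_of_all _ fun z => mul_nonneg (hχ0 z) (g0 z)) i9
        (ae_of_all _ fun z => ?_)
      show χ z * g z ≤ _
      by_cases hz : z ∈ interior K
      · have dF : DifferentiableAt ℝ (FG a h (sc K u) i j N n) z := by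
          rw [e1]
          exact DifferentiableAt.fun_sum fun k _ => ((da hB ((A'.bd _).sm n) hz).mul
            (da hB ((A'.bd _).sm n) hz)).const_mul _
        have h1 := hg z hz dF
        have h2 := par_sq a (h n) (FG a h (sc K u) i j N n) z
        have h3 : ‖DP a (h n) (FG a h (sc K u) i j N n) z‖ ^ 2 ≤ bp z := by
          rw [hbp]
          exact bnd_pt hN (h n) (sg_norm _) (key n z hz)
        have h4 : ‖DM a (h n) (FG a h (sc K u) i j N n) z‖ ^ 2 ≤ bm z := by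
          rw [hbm, ← norm_neg]
          exact bnd_pt hN (h n) (sg_norm _) (keyM n z hz)
        have a2 : 0 < a z ^ 2 := by
          have := ap z hz
          positivity
        have h5 : a z ^ 2 * g z ≤ 1 / 2 * (bp z + bm z) := by
          have := mul_le_mul_of_nonneg_left h1 a2.le
          linarith
        have h6 : χ z * g z = ψ z * (a z ^ 2 * g z) := by
          rw [hψd]
          show _ = χ z * (a z ^ 2)⁻¹ * (a z ^ 2 * g z)
          have a3 : a z ≠ 0 := (ap z hz).ne'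
          field_simp
        rw [h6]
        have h7 := mul_le_mul_of_nonneg_left h5 (hψ0 z)
        linarith
      · have z1 : χ z = 0 := TF.zero hχ hz
        have z2 : ψ z = 0 := TF.zero hψ hz
        simp only [z1, z2]
        simp
    refine b9.trans ?_
    rw [integral_const_mul, integral_add iP iM]
    linarith
  refine ⟨main _ (fun z => by positivity) fun z hz dF => ?_,
    main _ (fun z => by positivity) fun z hz dF => ?_⟩
  · have h1 := part_re dF (h n) 1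
    have h2 := part_re dF (h n) I
    rw [mul_add]
    exact add_le_add h1 h2
  · have h1 := part_im dF (h n) 1
    have h2 := part_im dF (h n) I
    rw [mul_add]
    exact add_le_add h1 h2

end

end Pool.Agent.P8H76.VC
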